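import Mathlib
import Pool.Agent.W761.Gauss.Avg

/-!
# Averages along general families of finite sets: closure and extension
-/

set_option autoImplicit false

open Filter Topology MeasureTheory Set
open scoped ENNReal NNReal

noncomputable section

namespace Pool.Agent.TH739.PA

open Pool.Agent.W761.Gauss (BM)

variable {I ι : Type*}

/-- complex averages over a finite set -/
def av (s : Finset ι) (a : ι → ℂ) : ℂ := (s.card : ℂ)⁻¹ * ∑ m ∈ s, a m

/-- real averages over a finite set -/
def avr (s : Finset ι) (a : ι → ℝ) : ℝ := (s.card : ℝ)⁻¹ * ∑ m ∈ s, a m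

theorem av_add (s : Finset ι) (a b : ι → ℂ) : av s (fun m => a m + b m) = av s a + av s b := by
  unfold av
  rw [Finset.sum_add_distrib, mul_add]

theorem av_sub (s : Finset ι) (a b : ι → ℂ) : av s (fun m => a m - b m) = av s a - av s b := by
  unfold av
  rw [Finset.sum_sub_distrib, mul_sub]

theorem av_mul (s : Finset ι) (c : ℂ) (a : ι → ℂ) : av s (fun m => c * a m) = c * av s a := by
  unfold av
  rw [← Finset.mul_sum]
  ring

theorem avr_add (s : Finset ι) (a b : ι → ℝ) :
    avr s (fun m => a m + b m) = avr s a + avr s b := by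
  unfold avr
  rw [Finset.sum_add_distrib, mul_add]

theorem avr_sub (s : Finset ι) (a b : ι → ℝ) :
    avr s (fun m => a m - b m) = avr s a - avr s b := by
  unfold avr
  rw [Finset.sum_sub_distrib, mul_sub]

theorem avr_mul (s : Finset ι) (c : ℝ) (a : ι → ℝ) : avr s (fun m => c * a m) = c * avr s a := by
  unfold avr
  rw [← Finset.mul_sum]
  ring

theorem avr_mono {s : Finset ι} {a b : ι → ℝ} (h : ∀ m ∈ s, a m ≤ b m) : avr s a ≤ avr s b :=
  mul_le_mul_of_nonneg_left (Finset.sum_le_sum h) (by positivity)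

theorem avr_nonneg {s : Finset ι} {a : ι → ℝ} (h : ∀ m, 0 ≤ a m) : 0 ≤ avr s a :=
  mul_nonneg (by positivity) (Finset.sum_nonneg fun m _ => h m)

theorem avr_const_le {s : Finset ι} {C : ℝ} (hC : 0 ≤ C) : avr s (fun _ => C) ≤ C := by
  unfold avr
  rw [Finset.sum_const, nsmul_eq_mul]
  rcases Nat.eq_zero_or_pos s.card with h | h
  · rw [h]
    simpa using hC
  · have : (s.card : ℝ) ≠ 0 := by exact_mod_cast h.ne'
    rw [inv_mul_cancel_left₀ this]

theorem avr_abs (s : Finset ι) (a : ι → ℝ) : |avr s a| ≤ avr s fun m => |a m| := by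
  unfold avr
  rw [abs_mul, abs_of_nonneg (by positivity : (0 : ℝ) ≤ (s.card : ℝ)⁻¹)]
  exact mul_le_mul_of_nonneg_left (Finset.abs_sum_le_sum_abs _ _) (by positivity)

theorem avr_bound {s : Finset ι} {a : ι → ℝ} {C : ℝ} (hC : 0 ≤ C) (h : ∀ m, |a m| ≤ C) :
    |avr s a| ≤ C :=
  ((avr_abs s a).trans (avr_mono fun m _ => h m)).trans (avr_const_le hC)

theorem av_norm (s : Finset ι) (a : ι → ℂ) : ‖av s a‖ ≤ avr s fun m => ‖a m‖ := by
  unfold av avr
  rw [norm_mul, norm_inv, Complex.norm_natCast]
  exact mul_le_mul_of_nonneg_left (norm_sum_le _ _) (by positivity)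

theorem av_ofReal (s : Finset ι) (a : ι → ℝ) : av s (fun m => (a m : ℂ)) = (avr s a : ℂ) := by
  unfold av avr
  push_cast
  rfl

/-- closed classes of families -/
structure Cls (l : Filter I) (S : Set (I → ℂ)) : Prop where
  add : ∀ u v, u ∈ S → v ∈ S → (fun N => u N + v N) ∈ S
  smul : ∀ (c : ℂ) u, u ∈ S → (fun N => c * u N) ∈ S
  closed : ∀ u, (∀ ε : ℝ, 0 < ε → ∃ v ∈ S, ∀ᶠ N in l, ‖u N - v N‖ ≤ ε) → u ∈ S

theorem Cls_zero (l : Filter I) : Cls l {u : I → ℂ | Tendsto u l (𝓝 0)} where
  add u v hu hv := by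
    have := Tendsto.add hu hv
    rwa [add_zero] at this
  smul c u hu := by
    have := Tendsto.const_mul c hu
    rwa [mul_zero] at this
  closed u h := by
    show Tendsto u l (𝓝 0)
    rw [Metric.tendsto_nhds]
    intro ε hε
    obtain ⟨v, hv, h1⟩ := h (ε / 3) (by positivity)
    have h2 := (Metric.tendsto_nhds.mp hv) (ε / 3) (by positivity)
    filter_upwards [h1, h2] with N a b
    rw [dist_eq_norm, sub_zero] at b ⊢
    have e : u N = (u N - v N) + v N := by ring
    rw [e]
    have := norm_add_le (u N - v N) (v N)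
    linarith

theorem Cls_conv (l : Filter I) [l.NeBot] : Cls l {u : I → ℂ | ∃ L, Tendsto u l (𝓝 L)} where
  add u v hu hv := by
    obtain ⟨L, hL⟩ := hu
    obtain ⟨M, hM⟩ := hv
    exact ⟨L + M, hL.add hM⟩
  smul c u hu := by
    obtain ⟨L, hL⟩ := hu
    exact ⟨c * L, hL.const_mul c⟩
  closed u h := by
    show ∃ L, Tendsto u l (𝓝 L)
    rw [← cauchy_map_iff_exists_tendsto, Metric.cauchy_iff]
    refine ⟨inferInstance, fun ε hε => ?_⟩
    obtain ⟨v, ⟨L, hL⟩, h1⟩ := h (ε / 5) (by positivity)
    have h2 := (Metric.tendsto_nhds.mp hL) (ε / 5) (by positivity)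
    refine ⟨Metric.ball L (2 * ε / 5), ?_, ?_⟩
    · rw [mem_map]
      filter_upwards [h1, h2] with N a b
      rw [mem_preimage, Metric.mem_ball]
      rw [← dist_eq_norm] at a
      have := dist_triangle (u N) (v N) L
      linarith
    · intro x hx y hy
      rw [Metric.mem_ball] at hx hy
      have := dist_triangle_right x y L
      linarith

variable {X : Type} [mX : MeasurableSpace X] {μ : Measure X}

/-- Averages of single bounded functions converge almost everywhere. -/
def Good (l : Filter I) (B : I → Finset ι) (μ : Measure X) (g : ι → X → X) : Prop :=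
  ∀ G : X → ℝ, Measurable G → (∃ C : ℝ, ∀ x, |G x| ≤ C) →
    ∀ᵐ x ∂μ, ∃ L : ℝ, Tendsto (fun N => avr (B N) fun m => G (g m x)) l (𝓝 L)

/-- The integral of the limit. -/
theorem int_lim [IsProbabilityMeasure μ] {l : Filter I} [l.NeBot] [l.IsCountablyGenerated]
    {B : I → Finset ι} {g : ι → X → X} (hg : ∀ m, MeasurePreserving (g m) μ μ)
    {G : X → ℝ} (hG : Measurable G) {C : ℝ} (hC : 0 ≤ C) (hb : ∀ x, |G x| ≤ C)
    (h0 : ∀ x, 0 ≤ G x) {γ : X → ℝ}
    (hγ : ∀ᵐ x ∂μ, Tendsto (fun N => avr (B N) fun m => G (g m x)) l (𝓝 (γ x))) :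
    0 ≤ᵐ[μ] γ ∧ Integrable γ μ ∧ ∫ x, γ x ∂μ ≤ ∫ x, G x ∂μ := by
  have hm : ∀ N, Measurable fun x => avr (B N) fun m => G (g m x) := by
    intro N
    unfold avr
    exact (Finset.measurable_fun_sum _ fun m _ => hG.comp (hg m).measurable).const_mul _
  refine ⟨?_, ?_, ?_⟩
  · filter_upwards [hγ] with x hx
    exact ge_of_tendsto hx (Eventually.of_forall fun N => avr_nonneg fun m => h0 _)
  · have hms : AEStronglyMeasurable γ μ := aestronglyMeasurable_of_tendsto_ae l
        (fun N => (hm N).aestronglyMeasurable) hγ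
    refine Integrable.of_bound hms C ?_
    filter_upwards [hγ] with x hx
    rw [Real.norm_eq_abs]
    exact le_of_tendsto hx.abs (Eventually.of_forall fun N => avr_bound hC fun m => hb _)
  have h1 := tendsto_integral_filter_of_dominated_convergence (l := l) (fun _ => C)
    (Eventually.of_forall fun N => (hm N).aestronglyMeasurable)
    (Eventually.of_forall fun N => Eventually.of_forall fun x => by
      rw [Real.norm_eq_abs]
      exact avr_bound hC fun m => hb _)
    (integrable_const _) hγ
  refine le_of_tendsto h1 (Eventually.of_forall fun N => ?_)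
  have h2 : ∀ m, ∫ x, G (g m x) ∂μ = ∫ x, G x ∂μ := by
    intro m
    have h3 := integral_map (μ := μ) (φ := g m) (f := G)
      (hg m).measurable.aemeasurable hG.aestronglyMeasurable
    rw [(hg m).map_eq] at h3
    exact h3.symm
  have h4 : ∫ x, avr (B N) (fun m => G (g m x)) ∂μ = avr (B N) (fun _ => ∫ x, G x ∂μ) := by
    unfold avr
    rw [integral_const_mul, integral_finsetSum]
    · rw [Finset.sum_congr rfl fun m _ => h2 m]
    · intro m _
      exact Integrable.of_bound (hG.comp (hg m).measurable).aestronglyMeasurable C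
        (Eventually.of_forall fun x => by
          rw [Real.norm_eq_abs]
          exact hb _)
  rw [h4]
  exact avr_const_le (integral_nonneg h0)

/-- **Closure in one slot.** -/
theorem closed_slot [IsProbabilityMeasure μ] {l : Filter I} [l.NeBot] [l.IsCountablyGenerated]
    {S : Set (I → ℂ)} (hS : Cls l S) {B : I → Finset ι} {g : ι → X → X}
    (hg : ∀ m, MeasurePreserving (g m) μ μ) (hgood : Good l B μ g)
    {Λ : (X → ℂ) → I → X → ℂ} {D : ℝ} (hD : 0 ≤ D) {h : X → ℂ}
    (H : ∀ ε : ℝ, 0 < ε → ∃ h' : X → ℂ, BM h' ∧ ∫ x, ‖h x - h' x‖ ∂μ ≤ ε ∧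
      ∀ᵐ x ∂μ, (fun N => Λ h' N x) ∈ S)
    (hbd : ∀ h', BM h' → ∃ K : X → ℝ, Measurable K ∧ (∃ C : ℝ, ∀ x, |K x| ≤ C) ∧
      (∀ x, 0 ≤ K x) ∧ ∫ x, K x ∂μ ≤ 2 * ∫ x, ‖h x - h' x‖ ∂μ ∧
      ∀ N x, ‖Λ h N x - Λ h' N x‖ ≤ D * avr (B N) (fun m => K (g m x))) :
    ∀ᵐ x ∂μ, (fun N => Λ h N x) ∈ S := by
  choose h' hB' hi hS' using fun i : ℕ => H (1 / ((i : ℝ) + 1)) (by positivity)
  choose K hKm hKb hK0 hKi hK using fun i => hbd (h' i) (hB' i)
  choose C hC using hKb
  have hlim := fun i => hgood (K i) (hKm i) ⟨C i, hC i⟩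
  let E : ℕ → X → ℝ := fun i x => limUnder l (fun N => avr (B N) fun m => K i (g m x))
  have hE : ∀ i, ∀ᵐ x ∂μ, Tendsto (fun N => avr (B N) fun m => K i (g m x)) l (𝓝 (E i x)) := by
    intro i
    filter_upwards [hlim i] with x hx
    exact tendsto_nhds_limUnder hx
  have hEE := fun i => int_lim hg (hKm i) (abs_nonneg (C i))
    (fun x => (hC i x).trans (le_abs_self _)) (hK0 i) (hE i)
  have hbad : ∀ t : ℕ, ∀ᵐ x ∂μ, ∃ i, E i x < 1 / ((t : ℝ) + 1) := by
    intro t
    have hε : (0 : ℝ) < 1 / ((t : ℝ) + 1) := by positivity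
    rw [ae_iff]
    simp only [not_exists, not_lt]
    have h1 : ∀ i : ℕ, 1 / ((t : ℝ) + 1) * μ.real {x | ∀ i, 1 / ((t : ℝ) + 1) ≤ E i x} ≤
        2 * (1 / ((i : ℝ) + 1)) := by
      intro i
      refine le_trans ?_ ((mul_meas_ge_le_integral_of_nonneg (hEE i).1 (hEE i).2.1
        (1 / ((t : ℝ) + 1))).trans (((hEE i).2.2.trans (hKi i)).trans
          (mul_le_mul_of_nonneg_left (hi i) (by norm_num))))
      refine mul_le_mul_of_nonneg_left ?_ hε.le
      exact measureReal_mono fun x hx => hx i
    have h2 : 1 / ((t : ℝ) + 1) * μ.real {x | ∀ i, 1 / ((t : ℝ) + 1) ≤ E i x} ≤ 2 * 0 :=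
      ge_of_tendsto' ((tendsto_one_div_add_atTop_nhds_zero_nat (𝕜 := ℝ)).const_mul 2) h1
    rw [mul_zero] at h2
    have h3 : μ.real {x | ∀ i, 1 / ((t : ℝ) + 1) ≤ E i x} = 0 := by
      refine le_antisymm ?_ measureReal_nonneg
      by_contra h4
      rw [not_le] at h4
      exact absurd h2 (not_le.mpr (mul_pos hε h4))
    exact (measureReal_eq_zero_iff).mp h3
  filter_upwards [ae_all_iff.mpr hE, ae_all_iff.mpr hbad, ae_all_iff.mpr hS'] with x hx1 hx2 hx3
  refine hS.closed _ fun ε hε => ?_
  obtain ⟨t, ht⟩ := exists_nat_one_div_lt (show (0 : ℝ) < ε / (D + 1) by positivity)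
  obtain ⟨i, hi'⟩ := hx2 t
  refine ⟨_, hx3 i, ?_⟩
  filter_upwards [(tendsto_order.mp (hx1 i)).2 _ (hi'.trans ht)] with N hN
  refine (hK i N x).trans ?_
  calc D * avr (B N) (fun m => K i (g m x)) ≤ D * (ε / (D + 1)) :=
        mul_le_mul_of_nonneg_left hN.le hD
    _ ≤ ε := by
      rw [mul_div_assoc', div_le_iff₀ (by positivity)]
      nlinarith

theorem ind_BM {D : Set X} (hD : MeasurableSet D) (c : ℂ) : BM (D.indicator fun _ => c) :=
  ⟨measurable_const.indicator hD, ‖c‖, fun _ => norm_indicator_le_norm_self _ _⟩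

theorem BM_add {f g : X → ℂ} (hf : BM f) (hg : BM g) : BM (f + g) := by
  obtain ⟨h1, C, hC⟩ := hf
  obtain ⟨h2, C', hC'⟩ := hg
  exact ⟨h1.add h2, C + C', fun x => (norm_add_le _ _).trans (add_le_add (hC x) (hC' x))⟩

theorem BM_smul {f : X → ℂ} (c : ℂ) (hf : BM f) : BM (fun x => c * f x) := by
  obtain ⟨h1, C, hC⟩ := hf
  exact ⟨h1.const_mul c, ‖c‖ * C, fun x => by
    rw [norm_mul]
    exact mul_le_mul_of_nonneg_left (hC x) (norm_nonneg _)⟩

/-- Extension from a π-system to all bounded functions. -/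
theorem ext_one [IsProbabilityMeasure μ] {P : (X → ℂ) → Prop}
    (hadd : ∀ f g, BM f → BM g → P f → P g → P (f + g))
    (hsmul : ∀ (c : ℂ) f, BM f → P f → P (fun x => c * f x))
    (hcl : ∀ h, BM h → (∀ ε : ℝ, 0 < ε → ∃ g, BM g ∧ ∫ x, ‖h x - g x‖ ∂μ ≤ ε ∧ P g) → P h)
    {𝒬 : Set (Set X)} (h𝒬m : ∀ D ∈ 𝒬, MeasurableSet D) (hπ : IsPiSystem 𝒬) (huniv : univ ∈ 𝒬)
    (hgen : ∀ C, MeasurableSet C → ∃ D, MeasurableSet[MeasurableSpace.generateFrom 𝒬] D ∧
      C =ᵐ[μ] D)
    (hP : ∀ D ∈ 𝒬, P (D.indicator fun _ => 1)) {h : X → ℂ} (hh : BM h) : P h := by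
  have hle : MeasurableSpace.generateFrom 𝒬 ≤ mX := MeasurableSpace.generateFrom_le h𝒬m
  have hlim : ∀ (h : X → ℂ), Measurable h → ∀ C : ℝ, (∀ x, ‖h x‖ ≤ C) → ∀ s : ℕ → X → ℂ,
      (∀ n, Measurable (s n)) → (∀ n x, ‖s n x‖ ≤ C) →
      (∀ x, Tendsto (fun n => s n x) atTop (𝓝 (h x))) → (∀ n, P (s n)) → P h := by
    intro h hhm C hC s hs hsC hl hPs
    refine hcl h ⟨hhm, C, hC⟩ fun ε hε => ?_
    have h1 := tendsto_integral_of_dominated_convergence (μ := μ)
      (F := fun n x => ‖h x - s n x‖) (f := fun _ => (0 : ℝ)) (fun _ => C + C)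
      (fun n => (hhm.sub (hs n)).norm.aestronglyMeasurable) (integrable_const _)
      (fun n => Eventually.of_forall fun x => by
        rw [Real.norm_of_nonneg (norm_nonneg _)]
        exact (norm_sub_le _ _).trans (add_le_add (hC x) (hsC n x)))
      (Eventually.of_forall fun x => by
        have h2 := ((hl x).const_sub (h x)).norm
        rwa [sub_self, norm_zero] at h2)
    rw [integral_zero] at h1
    obtain ⟨n, hn⟩ := ((tendsto_order.mp h1).2 ε hε).exists
    exact ⟨s n, ⟨hs n, C, hsC n⟩, hn.le, hPs n⟩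
  have h0 : P (fun _ => 0) := by
    have h1 := hsmul 0 _ (ind_BM MeasurableSet.univ 1) (hP univ huniv)
    have h2 : (fun x => (0 : ℂ) * (univ : Set X).indicator (fun _ => (1 : ℂ)) x) = fun _ => 0 := by
      funext x
      rw [zero_mul]
    rwa [h2] at h1
  have h1 : ∀ D, MeasurableSet[MeasurableSpace.generateFrom 𝒬] D →
      P (D.indicator fun _ => 1) := by
    refine MeasurableSpace.induction_on_inter (m := MeasurableSpace.generateFrom 𝒬) rfl hπ
      ?_ hP ?_ ?_
    · have : ((∅ : Set X).indicator fun _ => (1 : ℂ)) = fun _ => 0 := by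
        funext x
        exact indicator_of_notMem (notMem_empty x) _
      rw [this]
      exact h0
    · intro D hDm hD
      have e : (Dᶜ.indicator fun _ => (1 : ℂ)) = (univ.indicator fun _ => (1 : ℂ)) +
          fun x => (-1) * (D.indicator (fun _ => (1 : ℂ)) x) := by
        funext x
        rw [Pi.add_apply, indicator_of_mem (mem_univ x)]
        by_cases hx : x ∈ D
        · rw [indicator_of_notMem (by simpa using hx), indicator_of_mem hx]
          ring
        · rw [indicator_of_mem (by simpa using hx), indicator_of_notMem hx]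
          ring
      rw [e]
      exact hadd _ _ (ind_BM MeasurableSet.univ 1) (BM_smul _ (ind_BM (hle _ hDm) 1))
        (hP univ huniv) (hsmul (-1) _ (ind_BM (hle _ hDm) 1) hD)
    · intro D hdis hD hQ
      let s : ℕ → X → ℂ := fun n => (⋃ i ∈ Finset.range n, D i).indicator fun _ => 1
      have hsm : ∀ n, Measurable (s n) := fun n =>
        measurable_const.indicator (Finset.measurableSet_biUnion _ fun i _ => hle _ (hD i))
      have hs1 : ∀ n x, ‖s n x‖ ≤ 1 := fun n x => by
        refine (norm_indicator_le_norm_self _ _).trans ?_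
        simp
      refine hlim _ (measurable_const.indicator (MeasurableSet.iUnion fun i => hle _ (hD i))) 1
        (fun x => ?_) s hsm hs1 ?_ ?_
      · refine (norm_indicator_le_norm_self _ _).trans ?_
        simp
      · intro x
        by_cases hx : x ∈ ⋃ i, D i
        · rw [indicator_of_mem hx]
          obtain ⟨i, hi⟩ := mem_iUnion.mp hx
          refine tendsto_const_nhds.congr' ?_
          filter_upwards [eventually_gt_atTop i] with n hn
          have h2 : x ∈ ⋃ i ∈ Finset.range n, D i :=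
            mem_iUnion₂.mpr ⟨i, Finset.mem_range.mpr hn, hi⟩
          exact (indicator_of_mem h2 fun _ => (1 : ℂ)).symm
        · rw [indicator_of_notMem hx]
          refine tendsto_const_nhds.congr fun n => ?_
          have h2 : x ∉ ⋃ i ∈ Finset.range n, D i := by
            intro h2
            obtain ⟨i, _, hi⟩ := mem_iUnion₂.mp h2
            exact hx (mem_iUnion.mpr ⟨i, hi⟩)
          exact (indicator_of_notMem h2 fun _ => (1 : ℂ)).symm
      · intro n
        induction n with
        | zero =>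
          have : s 0 = fun _ => 0 := by
            funext x
            refine indicator_of_notMem (fun h2 => ?_) _
            obtain ⟨i, hi, _⟩ := mem_iUnion₂.mp h2
            exact absurd hi (by simp)
          rw [this]
          exact h0
        | succ n ih =>
          have : s (n + 1) = s n + (D n).indicator fun _ => 1 := by
            funext x
            rw [Pi.add_apply]
            show (⋃ i ∈ Finset.range (n + 1), D i).indicator (fun _ => (1 : ℂ)) x =
              (⋃ i ∈ Finset.range n, D i).indicator (fun _ => (1 : ℂ)) x +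
                (D n).indicator (fun _ => 1) x
            by_cases h3 : x ∈ D n
            · have h4 : x ∉ ⋃ i ∈ Finset.range n, D i := by
                intro h5
                obtain ⟨i, hi, hi'⟩ := mem_iUnion₂.mp h5
                have hne : i ≠ n := (Finset.mem_range.mp hi).ne
                exact (Set.disjoint_left.mp (hdis hne)) hi' h3
              have h6 : x ∈ ⋃ i ∈ Finset.range (n + 1), D i :=
                mem_iUnion₂.mpr ⟨n, Finset.self_mem_range_succ n, h3⟩
              rw [indicator_of_mem h6, indicator_of_notMem h4, indicator_of_mem h3, zero_add]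
            · rw [indicator_of_notMem h3, add_zero]
              by_cases h4 : x ∈ ⋃ i ∈ Finset.range n, D i
              · have h6 : x ∈ ⋃ i ∈ Finset.range (n + 1), D i := by
                  obtain ⟨i, hi, hi'⟩ := mem_iUnion₂.mp h4
                  exact mem_iUnion₂.mpr ⟨i, Finset.mem_range.mpr (by
                    have := Finset.mem_range.mp hi
                    omega), hi'⟩
                rw [indicator_of_mem h6, indicator_of_mem h4]
              · have h6 : x ∉ ⋃ i ∈ Finset.range (n + 1), D i := by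
                  intro h5
                  obtain ⟨i, hi, hi'⟩ := mem_iUnion₂.mp h5
                  rcases Nat.lt_succ_iff_lt_or_eq.mp (Finset.mem_range.mp hi) with h7 | h7
                  · exact h4 (mem_iUnion₂.mpr ⟨i, Finset.mem_range.mpr h7, hi'⟩)
                  · subst h7
                    exact h3 hi'
                rw [indicator_of_notMem h6, indicator_of_notMem h4]
          rw [this]
          exact hadd _ _ ⟨hsm n, 1, hs1 n⟩ (ind_BM (hle _ (hD n)) 1) ih (hQ n)
  have h2 : ∀ (c : ℂ) (D : Set X), MeasurableSet D → P (D.indicator fun _ => c) := by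
    intro c D hD
    obtain ⟨D', hD', e⟩ := hgen D hD
    have h3 := hsmul c _ (ind_BM (hle _ hD') 1) (h1 D' hD')
    refine hcl _ (ind_BM hD c) fun ε hε => ⟨_, BM_smul c (ind_BM (hle _ hD') 1), ?_, h3⟩
    have h4 : (fun x => ‖D.indicator (fun _ => c) x -
        c * D'.indicator (fun _ => (1 : ℂ)) x‖) =ᵐ[μ] fun _ => 0 := by
      filter_upwards [indicator_ae_eq_of_ae_eq_set (f := fun _ : X => c) e] with x hx
      rw [hx]
      by_cases hx' : x ∈ D'
      · simp [hx']
      · simp [hx']
    rw [integral_congr_ae h4, integral_zero]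
    exact hε.le
  obtain ⟨hhm, C, hC⟩ := hh
  have hC0 : 0 ≤ C := by
    obtain ⟨x⟩ : Nonempty X := by
      by_contra h
      rw [not_nonempty_iff] at h
      have h1 : μ Set.univ = 0 := by
        rw [Set.univ_eq_empty_iff.mpr h, measure_empty]
      rw [measure_univ] at h1
      exact one_ne_zero h1
    exact (norm_nonneg _).trans (hC x)
  have hsimp : ∀ φ : SimpleFunc X ℂ, P φ := by
    intro φ
    induction φ using SimpleFunc.induction with
    | const c hs =>
      rename_i D
      have : (SimpleFunc.piecewise D hs (SimpleFunc.const X c) (SimpleFunc.const X 0) : X → ℂ) =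
          D.indicator fun _ => c := by
        funext x
        by_cases hx : x ∈ D
        · simp [hx]
        · simp [hx]
      rw [this]
      exact h2 c D hs
    | add hdis ih1 ih2 =>
      rename_i φ ψ
      rw [SimpleFunc.coe_add]
      obtain ⟨C1, hC1⟩ := φ.exists_forall_norm_le
      obtain ⟨C2, hC2⟩ := ψ.exists_forall_norm_le
      exact hadd _ _ ⟨φ.measurable, C1, hC1⟩ ⟨ψ.measurable, C2, hC2⟩ ih1 ih2
  exact hlim h hhm C hC
    (fun n => (hhm.stronglyMeasurable.approxBounded C n : X → ℂ))
    (fun n => (hhm.stronglyMeasurable.approxBounded C n).measurable)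
    (fun n x => hhm.stronglyMeasurable.norm_approxBounded_le hC0 n x)
    (fun x => hhm.stronglyMeasurable.tendsto_approxBounded_of_norm_le (hC x)) fun n => hsimp _

theorem BM_update {m : ℕ} {f : Fin m → X → ℂ} (hf : ∀ j, BM (f j)) (k : Fin m) {h : X → ℂ}
    (hh : BM h) (l : Fin m) : BM (Function.update f k h l) := by
  by_cases hl : l = k
  · subst hl
    rw [Function.update_self]
    exact hh
  · rw [Function.update_of_ne hl]
    exact hf l

/-- Extension in all slots. -/
theorem ext_all {m : ℕ} {P : (Fin m → X → ℂ) → Prop} {𝒬 : Set (X → ℂ)}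
    (h𝒬 : ∀ f ∈ 𝒬, BM f)
    (hstep : ∀ (f : Fin m → X → ℂ) (k : Fin m), (∀ j, BM (f j)) →
      (∀ e ∈ 𝒬, P (Function.update f k e)) → ∀ h, BM h → P (Function.update f k h))
    (hbase : ∀ f : Fin m → X → ℂ, (∀ j, f j ∈ 𝒬) → P f) {f : Fin m → X → ℂ}
    (hf : ∀ j, BM (f j)) : P f := by
  have key : ∀ k : ℕ, ∀ f : Fin m → X → ℂ, (∀ j : Fin m, (j : ℕ) < k → BM (f j)) →
      (∀ j : Fin m, k ≤ (j : ℕ) → f j ∈ 𝒬) → P f := by
    intro k
    induction k with
    | zero =>
      intro f _ h2
      exact hbase f fun j => h2 j (Nat.zero_le _)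
    | succ k ih =>
      intro f h1 h2
      by_cases hk : k < m
      · let K : Fin m := ⟨k, hk⟩
        have hBM : ∀ j, BM (f j) := by
          intro j
          by_cases hj : (j : ℕ) < k + 1
          · exact h1 j hj
          · exact h𝒬 _ (h2 j (not_lt.mp hj))
        rw [← Function.update_eq_self K f]
        refine hstep f K hBM (fun e he => ?_) _ (hBM K)
        refine ih _ (fun j hj => ?_) fun j hj => ?_
        · have hne : j ≠ K := fun h => by
            rw [h] at hj
            exact lt_irrefl _ hj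
          rw [Function.update_of_ne hne]
          exact hBM j
        · by_cases hne : j = K
          · subst hne
            rw [Function.update_self]
            exact he
          · rw [Function.update_of_ne hne]
            refine h2 j ?_
            have : (j : ℕ) ≠ k := fun h => hne (Fin.ext h)
            omega
      · refine ih f (fun j hj => h1 j (by omega)) fun j hj => ?_
        exact absurd j.2 (by omega)
  exact key m f (fun j _ => hf j) fun j hj => absurd j.2 (by omega)

end Pool.Agent.TH739.PA
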