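import Mathlib
import Pool.Agent.TH739.PA.Abs

/-!
# Almost sure convergence from summable second moments
-/

set_option autoImplicit false

open Filter Topology MeasureTheory Set
open scoped ENNReal NNReal

noncomputable section

namespace Pool.Agent.TH739.PA

/-- the squares -/
def sq (N : ℕ) : Finset (ℤ × ℤ) := Finset.Icc (-(N : ℤ)) N ×ˢ Finset.Icc (-(N : ℤ)) N

/-- the larger absolute value -/
def mx (p : ℤ × ℤ) : ℝ := max |(p.1 : ℝ)| |(p.2 : ℝ)|

theorem mem_sq {N : ℕ} {p : ℤ × ℤ} : p ∈ sq N ↔ mx p ≤ N := by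
  unfold sq mx
  rw [Finset.mem_product, Finset.mem_Icc, Finset.mem_Icc, max_le_iff, abs_le, abs_le]
  constructor
  · rintro ⟨⟨a, b⟩, c, d⟩
    exact ⟨⟨by exact_mod_cast a, by exact_mod_cast b⟩, by exact_mod_cast c, by exact_mod_cast d⟩
  · rintro ⟨⟨a, b⟩, c, d⟩
    exact ⟨⟨by exact_mod_cast a, by exact_mod_cast b⟩, by exact_mod_cast c, by exact_mod_cast d⟩

theorem mx_nonneg (p : ℤ × ℤ) : 0 ≤ mx p := le_max_of_le_left (abs_nonneg _)

theorem floor_pos {c : ℝ} (hc : 1 < c) (k : ℕ) : 1 ≤ ⌊c ^ k⌋₊ := by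
  rw [Nat.one_le_floor_iff]
  exact one_le_pow₀ hc.le

theorem mx_lt {p : ℤ × ℤ} {N : ℕ} (hN : 1 ≤ N) (h : mx p ≤ N) : (1 + mx p) / 4 < N := by
  have h1 : (1 : ℝ) ≤ N := by exact_mod_cast hN
  linarith

theorem lac {q : ℤ × ℤ → ℝ} (hq : ∀ p, 0 ≤ q p)
    (hs : Summable fun p => q p / (1 + mx p) ^ 2) {c : ℝ} (hc : 1 < c) :
    Summable fun k : ℕ => (1 : ℝ) / (⌊c ^ k⌋₊ : ℝ) ^ 2 * ∑ p ∈ sq ⌊c ^ k⌋₊, q p := by
  classical
  set C : ℝ := c ^ 5 * (c - 1)⁻¹ ^ 3 with hC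
  refine summable_of_sum_range_le (c := 16 * C * ∑' p, q p / (1 + mx p) ^ 2)
    (fun k => mul_nonneg (by positivity) (Finset.sum_nonneg fun p _ => hq p)) fun K => ?_
  set M : ℕ := ⌊c ^ K⌋₊ with hM
  have hNM : ∀ k ∈ Finset.range K, sq ⌊c ^ k⌋₊ ⊆ sq M := by
    intro k hk p hp
    rw [mem_sq] at hp ⊢
    refine hp.trans ?_
    have : ⌊c ^ k⌋₊ ≤ M := Nat.floor_mono (pow_le_pow_right₀ hc.le (Finset.mem_range.mp hk).le)
    exact_mod_cast this
  have e1 : ∀ k ∈ Finset.range K, (1 : ℝ) / (⌊c ^ k⌋₊ : ℝ) ^ 2 * ∑ p ∈ sq ⌊c ^ k⌋₊, q p =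
      ∑ p ∈ sq M, if p ∈ sq ⌊c ^ k⌋₊ then (1 : ℝ) / (⌊c ^ k⌋₊ : ℝ) ^ 2 * q p else 0 := by
    intro k hk
    rw [← Finset.sum_filter, Finset.mul_sum]
    refine Finset.sum_congr ?_ fun _ _ => rfl
    ext p
    rw [Finset.mem_filter]
    exact ⟨fun h => ⟨hNM k hk h, h⟩, fun h => h.2⟩
  rw [Finset.sum_congr rfl e1, Finset.sum_comm]
  have e2 : ∀ p ∈ sq M, (∑ k ∈ Finset.range K,
      if p ∈ sq ⌊c ^ k⌋₊ then (1 : ℝ) / (⌊c ^ k⌋₊ : ℝ) ^ 2 * q p else 0) ≤
      16 * C * (q p / (1 + mx p) ^ 2) := by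
    intro p _
    have hm := mx_nonneg p
    have h1 : (∑ k ∈ Finset.range K,
        if p ∈ sq ⌊c ^ k⌋₊ then (1 : ℝ) / (⌊c ^ k⌋₊ : ℝ) ^ 2 * q p else 0) ≤
        (∑ k ∈ Finset.range K with (1 + mx p) / 4 < ⌊c ^ k⌋₊,
          (1 : ℝ) / (⌊c ^ k⌋₊ : ℝ) ^ 2) * q p := by
      rw [Finset.sum_filter, Finset.sum_mul]
      refine Finset.sum_le_sum fun k _ => ?_
      by_cases h : p ∈ sq ⌊c ^ k⌋₊
      · rw [if_pos h, if_pos (mx_lt (floor_pos hc k) (mem_sq.mp h))]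
      · rw [if_neg h]
        split_ifs
        · exact mul_nonneg (by positivity) (hq p)
        · rw [zero_mul]
    refine h1.trans ?_
    have h2 := sum_div_nat_floor_pow_sq_le_div_sq K (j := (1 + mx p) / 4) (by positivity) hc
    refine (mul_le_mul_of_nonneg_right h2 (hq p)).trans (le_of_eq ?_)
    rw [hC]
    field_simp
    ring
  refine (Finset.sum_le_sum e2).trans ?_
  rw [← Finset.mul_sum]
  refine mul_le_mul_of_nonneg_left ?_ ?_
  · exact hs.sum_le_tsum _ fun p _ => div_nonneg (hq p) (by positivity)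
  · have : 0 < c - 1 := by linarith
    have : 0 < c := by linarith
    positivity

section ae

variable {Z : Type*} [MeasurableSpace Z] {P : Measure Z}

theorem ae_zero {f : ℕ → Z → ℝ} (hm : ∀ k, Measurable (f k)) (h0 : ∀ k z, 0 ≤ f k z)
    (hi : ∀ k, Integrable (f k) P) (hs : Summable fun k => ∫ z, f k z ∂P) :
    ∀ᵐ z ∂P, Tendsto (fun k => f k z) atTop (𝓝 0) := by
  have h1 : ∫⁻ z, ∑' k, ENNReal.ofReal (f k z) ∂P ≠ ∞ := by
    rw [lintegral_tsum fun k => (hm k).ennreal_ofReal.aemeasurable]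
    have h2 : ∀ k, ∫⁻ z, ENNReal.ofReal (f k z) ∂P = ENNReal.ofReal (∫ z, f k z ∂P) := fun k =>
      (ofReal_integral_eq_lintegral_ofReal (hi k) (Eventually.of_forall (h0 k))).symm
    simp only [h2]
    rw [← ENNReal.ofReal_tsum_of_nonneg (fun k => integral_nonneg (h0 k)) hs]
    exact ENNReal.ofReal_ne_top
  have h3 := ae_lt_top' (AEMeasurable.ennreal_tsum fun k => (hm k).ennreal_ofReal.aemeasurable) h1
  filter_upwards [h3] with z hz
  have h4 := ENNReal.tendsto_atTop_zero_of_tsum_ne_top hz.ne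
  have h5 := (ENNReal.tendsto_toReal ENNReal.zero_ne_top).comp h4
  refine h5.congr fun k => ?_
  exact ENNReal.toReal_ofReal (h0 k z)

theorem Icc_card (N : ℕ) : (Finset.Icc (-(N : ℤ)) N).card = 2 * N + 1 := by
  rw [Int.card_Icc]
  omega

/-- **Convergence to zero of two-sided averages.** -/
theorem two_sided {ξ : ℤ → Z → ℝ} (hξm : ∀ n, Measurable (ξ n)) (hξ : ∀ n z, |ξ n z| ≤ 1)
    [IsProbabilityMeasure P] {q : ℤ × ℤ → ℝ} (hq : ∀ p, 0 ≤ q p)
    (hs : Summable fun p => q p / (1 + mx p) ^ 2)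
    (hvar : ∀ N : ℕ, ∫ z, (∑ n ∈ Finset.Icc (-(N : ℤ)) N, ξ n z) ^ 2 ∂P ≤ ∑ p ∈ sq N, q p) :
    ∀ᵐ z ∂P, Tendsto (fun N : ℕ => avr (Finset.Icc (-(N : ℤ)) N) fun n => ξ n z) atTop
      (𝓝 0) := by
  let c : ℕ → ℝ := fun k => 1 + 1 / ((k : ℝ) + 1)
  have cone : ∀ k, 1 < c k := fun k => by
    show 1 < 1 + 1 / ((k : ℝ) + 1)
    have : (0 : ℝ) < 1 / ((k : ℝ) + 1) := by positivity
    linarith
  have clim : Tendsto c atTop (𝓝 1) := by
    have := (tendsto_one_div_add_atTop_nhds_zero_nat (𝕜 := ℝ)).const_add 1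
    rwa [add_zero] at this
  let S : ℕ → Z → ℝ := fun N z => ∑ n ∈ Finset.Icc (-(N : ℤ)) N, ξ n z
  have hSm : ∀ N, Measurable (S N) := fun N => Finset.measurable_fun_sum _ fun n _ => hξm n
  have hSb : ∀ N z, |S N z| ≤ 2 * N + 1 := by
    intro N z
    refine (Finset.abs_sum_le_sum_abs _ _).trans ?_
    refine (Finset.sum_le_card_nsmul _ _ 1 fun n _ => hξ n z).trans ?_
    rw [Icc_card]
    simp
  have hae : ∀ k, ∀ᵐ z ∂P, Tendsto (fun n : ℕ => (S ⌊c k ^ n⌋₊ z / ⌊c k ^ n⌋₊) ^ 2) atTop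
      (𝓝 0) := by
    intro k
    have hl := lac hq hs (cone k)
    have hint : ∀ n : ℕ, Integrable (fun z => (S ⌊c k ^ n⌋₊ z / (⌊c k ^ n⌋₊ : ℝ)) ^ 2) P := by
      intro n
      refine Integrable.of_bound (((hSm _).div_const _).pow_const 2).aestronglyMeasurable
        (((2 * (⌊c k ^ n⌋₊ : ℝ) + 1) / ⌊c k ^ n⌋₊) ^ 2) (Eventually.of_forall fun z => ?_)
      rw [Real.norm_eq_abs, abs_pow, abs_div, Nat.abs_cast]
      refine pow_le_pow_left₀ (by positivity) ?_ 2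
      exact div_le_div_of_nonneg_right (hSb _ z) (by positivity)
    refine ae_zero (fun n => ((hSm _).div_const _).pow_const 2) (fun n z => sq_nonneg _) hint ?_
    refine Summable.of_nonneg_of_le (fun n => integral_nonneg fun z => sq_nonneg _)
      (fun n => ?_) hl
    have e : (fun z => (S ⌊c k ^ n⌋₊ z / (⌊c k ^ n⌋₊ : ℝ)) ^ 2) =
        fun z => 1 / (⌊c k ^ n⌋₊ : ℝ) ^ 2 * (S ⌊c k ^ n⌋₊ z) ^ 2 := by
      funext z
      rw [div_pow, one_div, div_eq_inv_mul]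
    rw [e, integral_const_mul]
    exact mul_le_mul_of_nonneg_left (hvar _) (by positivity)
  filter_upwards [ae_all_iff.mpr hae] with z hz
  let u : ℕ → ℝ := fun N => ∑ n ∈ Finset.Icc (-(N : ℤ)) N, (ξ n z + 1)
  have hmono : Monotone u := by
    intro a b hab
    refine Finset.sum_le_sum_of_subset_of_nonneg ?_ ?_
    · refine Finset.Icc_subset_Icc ?_ ?_ <;> omega
    · intro n _ _
      have := (abs_le.mp (hξ n z)).1
      linarith
  have hu : ∀ N : ℕ, u N = S N z + (2 * N + 1) := by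
    intro N
    show ∑ n ∈ Finset.Icc (-(N : ℤ)) N, (ξ n z + 1) = _
    rw [Finset.sum_add_distrib, Finset.sum_const, Icc_card]
    simp [S]
  have hdiv : Tendsto (fun N : ℕ => (2 * (N : ℝ) + 1) / N) atTop (𝓝 2) := by
    have h1 := (tendsto_one_div_atTop_nhds_zero_nat (𝕜 := ℝ)).const_add 2
    rw [add_zero] at h1
    refine h1.congr' ?_
    filter_upwards [eventually_gt_atTop 0] with N hN
    have : (N : ℝ) ≠ 0 := by exact_mod_cast hN.ne'
    field_simp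
  have hmain := tendsto_div_of_monotone_of_tendsto_div_floor_pow u 2 hmono c cone clim (by
    intro k
    have h1 : Tendsto (fun n : ℕ => S ⌊c k ^ n⌋₊ z / (⌊c k ^ n⌋₊ : ℝ)) atTop (𝓝 0) := by
      have h2 := (hz k).sqrt
      rw [Real.sqrt_zero] at h2
      rw [tendsto_zero_iff_abs_tendsto_zero]
      refine h2.congr fun n => ?_
      rw [Real.sqrt_sq_eq_abs]
      rfl
    have h3 := hdiv.comp ((tendsto_nat_floor_atTop (α := ℝ)).comp
      (tendsto_pow_atTop_atTop_of_one_lt (cone k)))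
    have h4 := h1.add h3
    rw [zero_add] at h4
    refine h4.congr fun n => ?_
    simp only [Function.comp_apply]
    rw [hu]
    ring)
  have h5 : Tendsto (fun N : ℕ => (u N / N) * ((N : ℝ) / (2 * N + 1)) - 1) atTop (𝓝 0) := by
    have h6 := hdiv.inv₀ (by norm_num : (2 : ℝ) ≠ 0)
    have h7 := (hmain.mul h6).sub_const 1
    rw [mul_inv_cancel₀ (by norm_num : (2 : ℝ) ≠ 0), sub_self] at h7
    refine h7.congr fun N => ?_
    rw [inv_div]
  refine h5.congr' ?_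
  filter_upwards [eventually_gt_atTop 0] with N hN
  have hN' : (N : ℝ) ≠ 0 := by exact_mod_cast hN.ne'
  have hN2 : (2 * (N : ℝ) + 1) ≠ 0 := by positivity
  rw [hu, avr, Icc_card]
  push_cast
  show _ = (2 * (N : ℝ) + 1)⁻¹ * S N z
  field_simp
  ring

end ae

end Pool.Agent.TH739.PA
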