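import Mathlib
import Pool.Agent.TH739.PA.Lac
import Pool.Agent.TH739.Pois.Joint

/-!
# Correlations of void events
-/

set_option autoImplicit false

open Filter Topology MeasureTheory Set
open scoped ENNReal NNReal symmDiff

noncomputable section

namespace Pool.Agent.TH739.PA

open Pool.Agent.TH739.Poi (IsVoid fin_biUnion)
open Pool.Agent.W761.Gauss (BM)

variable {X Y W : Type} [MeasurableSpace X] [MeasurableSpace Y] [MeasurableSpace W]
  {μ : Measure X} {ν : Measure Y} {κ : Measure W} {S : W → W} {T : Y → Y} {E : Set W → Set Y}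

/-- the probability of a void event -/
def pe (κ : Measure W) (A : Set W) : ℝ := Real.exp (-(κ.real A))

theorem pe_pos (κ : Measure W) (A : Set W) : 0 < pe κ A := Real.exp_pos _

theorem pe_le (κ : Measure W) (A : Set W) : pe κ A ≤ 1 :=
  Real.exp_le_one_iff.mpr (by linarith [measureReal_nonneg (μ := κ) (s := A)])

/-- the centered indicator of a void event -/
def ue (κ : Measure W) (E : Set W → Set Y) (A : Set W) (y : Y) : ℝ :=
  (E A).indicator (fun _ => (1 : ℝ)) y - pe κ A

omit [MeasurableSpace Y] in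
theorem ue_abs (κ : Measure W) (E : Set W → Set Y) (A : Set W) (y : Y) : |ue κ E A y| ≤ 1 := by
  unfold ue
  have h1 := pe_pos κ A
  have h2 := pe_le κ A
  by_cases h : y ∈ E A
  · rw [indicator_of_mem h, abs_le]
    constructor <;> linarith
  · rw [indicator_of_notMem h, abs_le]
    constructor <;> linarith

theorem real_E [IsProbabilityMeasure ν] (hE : IsVoid κ S ν T E) {A : Set W}
    (hA : MeasurableSet A) (hAf : κ A ≠ ∞) : ν.real (E A) = pe κ A := by
  rw [measureReal_def, hE.prob A hA hAf, ENNReal.toReal_ofReal (Real.exp_pos _).le]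
  rfl

theorem ue_meas (hE : IsVoid κ S ν T E) {A : Set W} (hA : MeasurableSet A) (hAf : κ A ≠ ∞) :
    Measurable (ue κ E A) :=
  (measurable_const.indicator (hE.meas A hA hAf)).sub_const _

theorem cov [IsProbabilityMeasure ν] (hE : IsVoid κ S ν T E) {A B : Set W}
    (hA : MeasurableSet A) (hB : MeasurableSet B) (hAf : κ A ≠ ∞) (hBf : κ B ≠ ∞) :
    0 ≤ ∫ y, ue κ E A y * ue κ E B y ∂ν ∧
      ∫ y, ue κ E A y * ue κ E B y ∂ν ≤ κ.real (A ∩ B) := by
  have hmA := hE.meas A hA hAf
  have hmB := hE.meas B hB hBf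
  have hU : κ (A ∪ B) ≠ ∞ := (measure_union_lt_top hAf.lt_top hBf.lt_top).ne
  have e : (fun y => ue κ E A y * ue κ E B y) = fun y =>
      (E A ∩ E B).indicator (fun _ => (1 : ℝ)) y - pe κ A * (E B).indicator (fun _ => 1) y -
        pe κ B * (E A).indicator (fun _ => 1) y + pe κ A * pe κ B := by
    funext y
    unfold ue
    by_cases h1 : y ∈ E A <;> by_cases h2 : y ∈ E B <;> simp [h1, h2] <;> ring
  have hi : ∀ {C : Set Y}, MeasurableSet C → Integrable (C.indicator fun _ => (1 : ℝ)) ν :=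
    fun hC => (integrable_const 1).indicator hC
  have hint : ∀ {C : Set Y}, MeasurableSet C → ∫ y, C.indicator (fun _ => (1 : ℝ)) y ∂ν =
      ν.real C := fun hC => by
    rw [integral_indicator_const _ hC, smul_eq_mul, mul_one]
  have e1 : ∫ y, ue κ E A y * ue κ E B y ∂ν = pe κ (A ∪ B) - pe κ A * pe κ B := by
    have i1 : Integrable (fun y => (E A ∩ E B).indicator (fun _ => (1 : ℝ)) y) ν :=
      hi (hmA.inter hmB)
    have i2 : Integrable (fun y => pe κ A * (E B).indicator (fun _ => (1 : ℝ)) y) ν :=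
      (hi hmB).const_mul _
    have i3 : Integrable (fun y => pe κ B * (E A).indicator (fun _ => (1 : ℝ)) y) ν :=
      (hi hmA).const_mul _
    have i12 : Integrable (fun y => (E A ∩ E B).indicator (fun _ => (1 : ℝ)) y -
      pe κ A * (E B).indicator (fun _ => (1 : ℝ)) y) ν := i1.sub i2
    have i123 : Integrable (fun y => (E A ∩ E B).indicator (fun _ => (1 : ℝ)) y -
      pe κ A * (E B).indicator (fun _ => (1 : ℝ)) y -
        pe κ B * (E A).indicator (fun _ => (1 : ℝ)) y) ν := i12.sub i3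
    rw [e, integral_add i123 (integrable_const _), integral_sub i12 i3, integral_sub i1 i2,
      integral_const_mul, integral_const_mul, hint hmA, hint hmB,
      hint (hmA.inter hmB), integral_const, real_E hE hA hAf, real_E hE hB hBf,
      ← measureReal_congr (hE.union A B hA hB hAf hBf), real_E hE (hA.union hB) hU]
    simp
    ring
  have h1 : κ.real (A ∪ B) + κ.real (A ∩ B) = κ.real A + κ.real B :=
    measureReal_union_add_inter hB hAf hBf
  have h2 : pe κ A * pe κ B = pe κ (A ∪ B) * Real.exp (-(κ.real (A ∩ B))) := by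
    unfold pe
    rw [← Real.exp_add, ← Real.exp_add]
    congr 1
    linarith
  have h3 : 0 ≤ κ.real (A ∩ B) := measureReal_nonneg
  have h4 : Real.exp (-(κ.real (A ∩ B))) ≤ 1 := Real.exp_le_one_iff.mpr (by linarith)
  have h5 := Real.add_one_le_exp (-(κ.real (A ∩ B)))
  have h6 := pe_pos κ (A ∪ B)
  have h7 := pe_le κ (A ∪ B)
  rw [e1, h2]
  constructor
  · nlinarith
  · nlinarith

/-- second moments of sums of indicator functions -/
theorem gram {ι : Type*} (s : Finset ι) {A : ι → Set W} (hA : ∀ n, MeasurableSet (A n))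
    (hAf : ∀ n, κ (A n) ≠ ∞) :
    Integrable (fun w => (∑ n ∈ s, (A n).indicator (fun _ => (1 : ℝ)) w) ^ 2) κ ∧
      ∫ w, (∑ n ∈ s, (A n).indicator (fun _ => (1 : ℝ)) w) ^ 2 ∂κ =
        ∑ p ∈ s ×ˢ s, κ.real (A p.1 ∩ A p.2) := by
  have e : (fun w => (∑ n ∈ s, (A n).indicator (fun _ => (1 : ℝ)) w) ^ 2) = fun w =>
      ∑ p ∈ s ×ˢ s, (A p.1 ∩ A p.2).indicator (fun _ => (1 : ℝ)) w := by
    funext w
    rw [pow_two, Finset.sum_mul_sum, Finset.sum_product]
    refine Finset.sum_congr rfl fun n _ => Finset.sum_congr rfl fun n' _ => ?_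
    by_cases h1 : w ∈ A n <;> by_cases h2 : w ∈ A n' <;> simp [h1, h2]
  have hi : ∀ p : ι × ι, Integrable ((A p.1 ∩ A p.2).indicator fun _ => (1 : ℝ)) κ := fun p =>
    (integrable_indicator_iff ((hA _).inter (hA _))).mpr
      (integrableOn_const (ne_top_of_le_ne_top (hAf p.1) (measure_mono inter_subset_left)))
  rw [e]
  refine ⟨integrable_finsetSum _ fun p _ => hi p, ?_⟩
  rw [integral_finsetSum _ fun p _ => hi p]
  refine Finset.sum_congr rfl fun p _ => ?_
  rw [integral_indicator_const _ ((hA _).inter (hA _)), smul_eq_mul, mul_one]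

/-- The overlaps of the unions. -/
theorem overlap_union {ι : Type*} (s : Finset ι) {m : ℕ} {C : Fin m → ι → Set W}
    (hC : ∀ j n, MeasurableSet (C j n)) (hCf : ∀ j n, κ (C j n) ≠ ∞) :
    ∑ p ∈ s ×ˢ s, κ.real ((⋃ j, C j p.1) ∩ ⋃ j, C j p.2) ≤
      m * ∑ j, ∑ p ∈ s ×ˢ s, κ.real (C j p.1 ∩ C j p.2) := by
  have hD : ∀ n, MeasurableSet (⋃ j, C j n) := fun n => MeasurableSet.iUnion fun j => hC j n
  have hDf : ∀ n, κ (⋃ j, C j n) ≠ ∞ := fun n => by
    have := fin_biUnion (ν := κ) (Finset.univ : Finset (Fin m)) (B := fun j => C j n)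
      fun j => hCf j n
    simpa using this
  have h1 := gram (κ := κ) s hD hDf
  have h2 := fun j => gram (κ := κ) s (hC j) (hCf j)
  rw [← h1.2]
  simp only [← fun j => (h2 j).2]
  rw [← integral_finsetSum _ fun j _ => (h2 j).1, ← integral_const_mul]
  refine integral_mono h1.1 ((integrable_finsetSum _ fun j _ => (h2 j).1).const_mul _)
    fun w => ?_
  have h3 : ∑ n ∈ s, (⋃ j, C j n).indicator (fun _ => (1 : ℝ)) w ≤
      ∑ j, ∑ n ∈ s, (C j n).indicator (fun _ => (1 : ℝ)) w := by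
    rw [Finset.sum_comm]
    refine Finset.sum_le_sum fun n _ => ?_
    by_cases h : w ∈ ⋃ j, C j n
    · rw [indicator_of_mem h]
      obtain ⟨j, hj⟩ := mem_iUnion.mp h
      have h4 := Finset.single_le_sum (f := fun j => (C j n).indicator (fun _ => (1 : ℝ)) w)
        (fun j _ => indicator_nonneg (fun _ _ => zero_le_one) _) (Finset.mem_univ j)
      simp only [indicator_of_mem hj] at h4
      exact h4
    · rw [indicator_of_notMem h]
      exact Finset.sum_nonneg fun j _ => indicator_nonneg (fun _ _ => zero_le_one) _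
  have h5 : 0 ≤ ∑ n ∈ s, (⋃ j, C j n).indicator (fun _ => (1 : ℝ)) w :=
    Finset.sum_nonneg fun n _ => indicator_nonneg (fun _ _ => zero_le_one) _
  refine (pow_le_pow_left₀ h5 h3 2).trans ?_
  have h6 := sq_sum_le_card_mul_sum_sq (s := (Finset.univ : Finset (Fin m)))
    (f := fun j => ∑ n ∈ s, (C j n).indicator (fun _ => (1 : ℝ)) w)
  rw [Finset.card_univ, Fintype.card_fin] at h6
  exact h6

/-- The variance of weighted sums of void events. -/
theorem var [IsProbabilityMeasure μ] [IsProbabilityMeasure ν] (hE : IsVoid κ S ν T E)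
    {ι : Type*} (s : Finset ι) {w : ι → X → ℝ} (hw : ∀ n, Measurable (w n))
    (hw1 : ∀ n x, |w n x| ≤ 1) {D : ι → Set W} (hD : ∀ n, MeasurableSet (D n))
    (hDf : ∀ n, κ (D n) ≠ ∞) :
    ∫ z, (∑ n ∈ s, w n z.1 * ue κ E (D n) z.2) ^ 2 ∂(μ.prod ν) ≤
      ∑ p ∈ s ×ˢ s, κ.real (D p.1 ∩ D p.2) := by
  have e : (fun z : X × Y => (∑ n ∈ s, w n z.1 * ue κ E (D n) z.2) ^ 2) = fun z =>
      ∑ p ∈ s ×ˢ s, (w p.1 z.1 * w p.2 z.1) * (ue κ E (D p.1) z.2 * ue κ E (D p.2) z.2) := by
    funext z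
    rw [pow_two, Finset.sum_mul_sum, Finset.sum_product]
    refine Finset.sum_congr rfl fun n _ => Finset.sum_congr rfl fun n' _ => ?_
    ring
  have hwi : ∀ p : ι × ι, Integrable (fun x => w p.1 x * w p.2 x) μ := fun p =>
    Integrable.of_bound ((hw _).mul (hw _)).aestronglyMeasurable 1 (Eventually.of_forall fun x => by
      rw [Real.norm_eq_abs, abs_mul]
      exact mul_le_one₀ (hw1 _ x) (abs_nonneg _) (hw1 _ x))
  have hui : ∀ p : ι × ι, Integrable (fun y => ue κ E (D p.1) y * ue κ E (D p.2) y) ν := fun p =>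
    Integrable.of_bound ((ue_meas hE (hD _) (hDf _)).mul
      (ue_meas hE (hD _) (hDf _))).aestronglyMeasurable 1 (Eventually.of_forall fun y => by
      rw [Real.norm_eq_abs, abs_mul]
      exact mul_le_one₀ (ue_abs _ _ _ y) (abs_nonneg _) (ue_abs _ _ _ y))
  rw [e, integral_finsetSum _ fun p _ => (hwi p).mul_prod (hui p)]
  refine Finset.sum_le_sum fun p _ => ?_
  have h1 := integral_prod_mul (μ := μ) (ν := ν) (fun x => w p.1 x * w p.2 x)
    (fun y => ue κ E (D p.1) y * ue κ E (D p.2) y)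
  rw [h1]
  obtain ⟨c0, c1⟩ := cov hE (hD p.1) (hD p.2) (hDf p.1) (hDf p.2)
  have h2 : ∫ x, w p.1 x * w p.2 x ∂μ ≤ 1 := by
    refine (integral_mono (hwi p) (integrable_const 1) fun x => ?_).trans ?_
    · have := mul_le_one₀ (hw1 p.1 x) (abs_nonneg (w p.2 x)) (hw1 p.2 x)
      rw [← abs_mul] at this
      exact (le_abs_self _).trans this
    · simp
  calc (∫ x, w p.1 x * w p.2 x ∂μ) * ∫ y, ue κ E (D p.1) y * ue κ E (D p.2) y ∂ν
      ≤ 1 * ∫ y, ue κ E (D p.1) y * ue κ E (D p.2) y ∂ν := mul_le_mul_of_nonneg_right h2 c0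
    _ ≤ κ.real (D p.1 ∩ D p.2) := by rw [one_mul]; exact c1

/-- The measure of a union with small overlaps. -/
theorem union_real {m : ℕ} {C : Fin m → Set W} (hC : ∀ j, MeasurableSet (C j))
    (hCf : ∀ j, κ (C j) ≠ ∞) :
    κ.real (⋃ j, C j) ≤ ∑ j, κ.real (C j) ∧
      ∑ j, κ.real (C j) ≤ κ.real (⋃ j, C j) +
        ∑ i, ∑ j, if i ≠ j then κ.real (C i ∩ C j) else 0 := by
  have hU : MeasurableSet (⋃ j, C j) := MeasurableSet.iUnion hC
  have hUf : κ (⋃ j, C j) ≠ ∞ := by
    have := fin_biUnion (ν := κ) (Finset.univ : Finset (Fin m)) (B := C) hCf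
    simpa using this
  refine ⟨measureReal_iUnion_fintype_le C, ?_⟩
  have h1 := gram (κ := κ) (Finset.univ : Finset (Fin m)) hC hCf
  have hi : ∀ {A : Set W}, MeasurableSet A → κ A ≠ ∞ →
      Integrable (A.indicator fun _ => (1 : ℝ)) κ := fun hA hf =>
    (integrable_indicator_iff hA).mpr (integrableOn_const hf)
  have hint : ∀ {A : Set W}, MeasurableSet A → ∫ w, A.indicator (fun _ => (1 : ℝ)) w ∂κ =
      κ.real A := fun hA => by
    rw [integral_indicator_const _ hA, smul_eq_mul, mul_one]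
  have h2 : 0 ≤ ∫ w, ((∑ j, (C j).indicator (fun _ => (1 : ℝ)) w) ^ 2 -
      2 * (∑ j, (C j).indicator (fun _ => (1 : ℝ)) w) +
        (⋃ j, C j).indicator (fun _ => (1 : ℝ)) w) ∂κ := by
    refine integral_nonneg fun w => ?_
    show 0 ≤ (∑ j, (C j).indicator (fun _ => (1 : ℝ)) w) ^ 2 -
      2 * (∑ j, (C j).indicator (fun _ => (1 : ℝ)) w) +
        (⋃ j, C j).indicator (fun _ => (1 : ℝ)) w
    by_cases h : w ∈ ⋃ j, C j
    · rw [indicator_of_mem h]
      nlinarith [sq_nonneg ((∑ j, (C j).indicator (fun _ => (1 : ℝ)) w) - 1)]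
    · rw [indicator_of_notMem h]
      have h3 : ∑ j, (C j).indicator (fun _ => (1 : ℝ)) w = 0 := by
        refine Finset.sum_eq_zero fun j _ => indicator_of_notMem (fun h4 => ?_) _
        exact h (mem_iUnion.mpr ⟨j, h4⟩)
      rw [h3]
      norm_num
  have hsum : Integrable (fun w => ∑ j, (C j).indicator (fun _ => (1 : ℝ)) w) κ :=
    integrable_finsetSum _ fun j _ => hi (hC j) (hCf j)
  have hs2 : Integrable (fun w => 2 * ∑ j, (C j).indicator (fun _ => (1 : ℝ)) w) κ :=
    hsum.const_mul 2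
  have hs3 : Integrable (fun w => (∑ j, (C j).indicator (fun _ => (1 : ℝ)) w) ^ 2 -
    2 * ∑ j, (C j).indicator (fun _ => (1 : ℝ)) w) κ := h1.1.sub hs2
  rw [integral_add hs3 (hi hU hUf), integral_sub h1.1 hs2, integral_const_mul, h1.2, hint hU,
    integral_finsetSum _ fun j _ => hi (hC j) (hCf j), Finset.sum_product] at h2
  simp only [hint (hC _)] at h2
  have h5 : ∑ i, ∑ j, κ.real (C i ∩ C j) = ∑ j, κ.real (C j) +
      ∑ i, ∑ j, if i ≠ j then κ.real (C i ∩ C j) else 0 := by
    rw [← Finset.sum_add_distrib]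
    refine Finset.sum_congr rfl fun i _ => ?_
    rw [← Finset.add_sum_erase _ _ (Finset.mem_univ i), inter_self]
    congr 1
    rw [← Finset.sum_filter]
    refine Finset.sum_congr ?_ fun _ _ => rfl
    ext j
    simp [Finset.mem_erase, eq_comm]
  linarith

end Pool.Agent.TH739.PA
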