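import Mathlib
import Pool.Agent.TH739.PA.Cov

/-!
# The first factor is characteristic
-/

set_option autoImplicit false

open Filter Topology MeasureTheory Set
open scoped ENNReal NNReal symmDiff

noncomputable section

namespace Pool.Agent.TH739.PA

open Pool.Agent.TH739.Poi (IsVoid fin_biUnion Rec Rec_pi Rec_univ Rec_gen)
open Pool.Agent.W761.Gauss (BM)

variable {X Y W : Type} [MeasurableSpace X] [MeasurableSpace Y] [MeasurableSpace W]
  {μ : Measure X} {ν : Measure Y} {κ : Measure W} {S : W → W} {T : Y → Y} {E : Set W → Set Y}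
  {m : ℕ} {I ι : Type*} {𝔣 : Filter I} {Bx : I → Finset ι}

/-- Families bounded by one whose sums have small second moments have averages tending to zero
almost surely. -/
def LP (𝔣 : Filter I) (Bx : I → Finset ι) (q : ι × ι → ℝ) : Prop :=
  ∀ (Z : Type) (_ : MeasurableSpace Z) (P : Measure Z) (_ : IsProbabilityMeasure P)
    (ξ : ι → Z → ℝ), (∀ n, Measurable (ξ n)) → (∀ n z, |ξ n z| ≤ 1) →
      (∀ N, ∫ z, (∑ n ∈ Bx N, ξ n z) ^ 2 ∂P ≤ ∑ p ∈ Bx N ×ˢ Bx N, q p) →
        ∀ᵐ z ∂P, Tendsto (fun N => avr (Bx N) fun n => ξ n z) 𝔣 (𝓝 0)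

/-- the integral over the second coordinate -/
def bar (ν : Measure Y) (h : X × Y → ℂ) (z : X × Y) : ℂ := ∫ y, h (z.1, y) ∂ν

theorem sec_int [IsProbabilityMeasure ν] {h : X × Y → ℂ} (hh : BM h) (x : X) :
    Integrable (fun y => h (x, y)) ν := by
  obtain ⟨hm, C, hC⟩ := hh
  exact Integrable.of_bound (hm.comp measurable_prodMk_left).aestronglyMeasurable C
    (Eventually.of_forall fun y => hC _)

omit [MeasurableSpace X] in
theorem bar_norm [IsProbabilityMeasure ν] {h : X × Y → ℂ} {C : ℝ} (hC : ∀ z, ‖h z‖ ≤ C)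
    (z : X × Y) : ‖bar ν h z‖ ≤ C := by
  have h1 := norm_integral_le_of_norm_le_const (μ := ν) (f := fun y => h (z.1, y))
    (Eventually.of_forall fun y => hC (z.1, y))
  simpa [bar] using h1

theorem bar_BM [IsProbabilityMeasure ν] {h : X × Y → ℂ} (hh : BM h) : BM (bar ν h) := by
  obtain ⟨hm, C, hC⟩ := hh
  refine ⟨?_, C, bar_norm hC⟩
  have h1 : StronglyMeasurable fun x => ∫ y, h (x, y) ∂ν :=
    StronglyMeasurable.integral_prod_right' (ν := ν) hm.stronglyMeasurable
  exact h1.measurable.comp measurable_fst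

theorem bar_add [IsProbabilityMeasure ν] {f g : X × Y → ℂ} (hf : BM f) (hg : BM g) (z : X × Y) :
    bar ν (f + g) z = bar ν f z + bar ν g z :=
  integral_add (sec_int hf z.1) (sec_int hg z.1)

omit [MeasurableSpace X] in
theorem bar_mul (c : ℂ) (f : X × Y → ℂ) (z : X × Y) :
    bar ν (fun z => c * f z) z = c * bar ν f z := integral_const_mul c _

/-- the product of the functions -/
def pr (g : Fin m → ι → X × Y → X × Y) (F : Fin m → X × Y → ℂ) (n : ι) (z : X × Y) : ℂ :=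
  ∏ j, F j (g j n z)

omit [MeasurableSpace X] [MeasurableSpace Y] in
theorem pr_update (g : Fin m → ι → X × Y → X × Y) (F : Fin m → X × Y → ℂ) (k : Fin m)
    (h : X × Y → ℂ) (n : ι) (z : X × Y) :
    pr g (Function.update F k h) n z = h (g k n z) * ∏ l ∈ Finset.univ.erase k, F l (g l n z) := by
  unfold pr
  rw [← Finset.mul_prod_erase _ _ (Finset.mem_univ k), Function.update_self]
  congr 1
  refine Finset.prod_congr rfl fun l hl => ?_
  rw [Function.update_of_ne (Finset.ne_of_mem_erase hl)]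

omit [MeasurableSpace X] in
theorem bar_update (F : Fin m → X × Y → ℂ) (k : Fin m) (h : X × Y → ℂ) :
    (fun l => bar ν (Function.update F k h l)) =
      Function.update (fun l => bar ν (F l)) k (bar ν h) := by
  funext l
  by_cases hl : l = k
  · subst hl
    rw [Function.update_self, Function.update_self]
  · rw [Function.update_of_ne hl, Function.update_of_ne hl]

/-- The difference of the averages tends to zero. -/
def PZ (𝔣 : Filter I) (Bx : I → Finset ι) (μ : Measure X) (ν : Measure Y) (g : Fin m → ι → X × Y → X × Y)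
    (F : Fin m → X × Y → ℂ) : Prop :=
  ∀ᵐ z ∂(μ.prod ν), Tendsto (fun N : I => av (Bx N) fun n =>
    pr g F n z - pr g (fun l => bar ν (F l)) n z) 𝔣 (𝓝 0)

theorem int_fst [IsProbabilityMeasure μ] [IsProbabilityMeasure ν] (φ : X → ℝ) :
    ∫ z, φ z.1 ∂(μ.prod ν) = ∫ x, φ x ∂μ := by
  have := integral_fun_fst (μ := μ) (ν := ν) φ
  simpa using this

theorem int_snd [IsProbabilityMeasure μ] [IsProbabilityMeasure ν] (φ : Y → ℝ) :
    ∫ z, φ z.2 ∂(μ.prod ν) = ∫ y, φ y ∂ν := by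
  have := integral_fun_snd (μ := μ) (ν := ν) φ
  simpa using this

/-- Closure in one slot. -/
theorem PZ_closed [𝔣.NeBot] [𝔣.IsCountablyGenerated] [IsProbabilityMeasure μ] [IsProbabilityMeasure ν]
    {g : Fin m → ι → X × Y → X × Y}
    (hg : ∀ j n, MeasurePreserving (g j n) (μ.prod ν) (μ.prod ν))
    (hgood : ∀ j, Good 𝔣 Bx (μ.prod ν) (g j))
    {F : Fin m → X × Y → ℂ} (hF : ∀ j, BM (F j)) (k : Fin m) {h : X × Y → ℂ} (hh : BM h)
    (H : ∀ ε : ℝ, 0 < ε → ∃ h' : X × Y → ℂ, BM h' ∧ ∫ z, ‖h z - h' z‖ ∂(μ.prod ν) ≤ ε ∧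
      PZ 𝔣 Bx μ ν g (Function.update F k h')) : PZ 𝔣 Bx μ ν g (Function.update F k h) := by
  choose hFm CF hCF using hF
  set D : ℝ := ∏ l ∈ Finset.univ.erase k, (|CF l| + 1) with hD
  have hD0 : 0 ≤ D := Finset.prod_nonneg fun l _ => by positivity
  have hR : ∀ (n : ι) (z : X × Y), ‖∏ l ∈ Finset.univ.erase k, F l (g l n z)‖ ≤ D := by
    intro n z
    rw [norm_prod]
    refine Finset.prod_le_prod (fun l _ => norm_nonneg _) fun l _ => ?_
    exact ((hCF l _).trans (le_abs_self _)).trans (by linarith)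
  have hR' : ∀ (n : ι) (z : X × Y), ‖∏ l ∈ Finset.univ.erase k, bar ν (F l) (g l n z)‖ ≤ D := by
    intro n z
    rw [norm_prod]
    refine Finset.prod_le_prod (fun l _ => norm_nonneg _) fun l _ => ?_
    exact ((bar_norm (hCF l) _).trans (le_abs_self _)).trans (by linarith)
  let Λ : (X × Y → ℂ) → I → X × Y → ℂ := fun h N z => av (Bx N) fun n =>
    h (g k n z) * ∏ l ∈ Finset.univ.erase k, F l (g l n z) -
      bar ν h (g k n z) * ∏ l ∈ Finset.univ.erase k, bar ν (F l) (g l n z)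
  have hΛ : ∀ h z, (fun N : I => av (Bx N) fun n =>
      pr g (Function.update F k h) n z - pr g (fun l => bar ν (Function.update F k h l)) n z) =
      fun N => Λ h N z := by
    intro h z
    funext N
    show _ = av _ _
    congr 1
    funext n
    rw [bar_update, pr_update, pr_update]
  have hmain := closed_slot (μ := μ.prod ν) (Cls_zero 𝔣)
    (B := Bx) (g := g k) (hg k) (hgood k) (Λ := Λ) hD0 (h := h)
    (fun ε hε => by
      obtain ⟨h', hB, hi, hP⟩ := H ε hε
      refine ⟨h', hB, hi, ?_⟩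
      filter_upwards [hP] with z hz
      rw [hΛ] at hz
      exact hz) ?_
  · filter_upwards [hmain] with z hz
    rw [hΛ]
    exact hz
  intro h' hh'
  obtain ⟨hhm, Ch, hCh⟩ := id hh
  obtain ⟨hhm', Ch', hCh'⟩ := id hh'
  let φ : X × Y → ℝ := fun z => ‖h z - h' z‖
  have hφm : Measurable φ := (hhm.sub hhm').norm
  have hφ0 : ∀ z, 0 ≤ φ z := fun z => norm_nonneg _
  have hφC : ∀ z, φ z ≤ Ch + Ch' := fun z => (norm_sub_le _ _).trans (add_le_add (hCh z) (hCh' z))
  have hC0 : ∀ z : X × Y, 0 ≤ Ch + Ch' := fun z => (hφ0 z).trans (hφC z)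
  let ψ : X → ℝ := fun x => ∫ y, φ (x, y) ∂ν
  have hψm : Measurable ψ :=
    (StronglyMeasurable.integral_prod_right' (ν := ν) hφm.stronglyMeasurable).measurable
  have hψ0 : ∀ x, 0 ≤ ψ x := fun x => integral_nonneg fun y => hφ0 _
  have hψC : ∀ z : X × Y, ψ z.1 ≤ Ch + Ch' := by
    intro z
    have h1 := norm_integral_le_of_norm_le_const (μ := ν) (f := fun y => φ (z.1, y))
      (C := Ch + Ch') (Eventually.of_forall fun y => by
        rw [Real.norm_of_nonneg (hφ0 _)]
        exact hφC _)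
    rw [Real.norm_of_nonneg (integral_nonneg fun y => hφ0 _)] at h1
    simpa [ψ] using h1
  have hφi : Integrable φ (μ.prod ν) := Integrable.of_bound hφm.aestronglyMeasurable (Ch + Ch')
    (Eventually.of_forall fun z => by
      rw [Real.norm_of_nonneg (hφ0 _)]
      exact hφC _)
  have hψi : Integrable (fun z : X × Y => ψ z.1) (μ.prod ν) :=
    Integrable.of_bound (hψm.comp measurable_fst).aestronglyMeasurable (Ch + Ch')
    (Eventually.of_forall fun z => by
      rw [Real.norm_of_nonneg (hψ0 _)]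
      exact hψC _)
  refine ⟨fun z => φ z + ψ z.1, hφm.add (hψm.comp measurable_fst),
    ⟨(Ch + Ch') + (Ch + Ch'), fun z => ?_⟩, fun z => add_nonneg (hφ0 _) (hψ0 _), ?_, ?_⟩
  · rw [abs_of_nonneg (add_nonneg (hφ0 _) (hψ0 _))]
    exact add_le_add (hφC z) (hψC z)
  · have e1 : ∫ z, (φ z + ψ z.1) ∂(μ.prod ν) = ∫ z, φ z ∂(μ.prod ν) + ∫ z, ψ z.1 ∂(μ.prod ν) :=
      integral_add hφi hψi
    rw [e1, int_fst, integral_prod φ hφi]
    show ∫ x, ψ x ∂μ + ∫ x, ψ x ∂μ ≤ 2 * ∫ x, ψ x ∂μ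
    linarith
  · intro N z
    show ‖av _ _ - av _ _‖ ≤ _
    rw [← av_sub, ← avr_mul]
    refine (av_norm _ _).trans (avr_mono fun n _ => ?_)
    have e2 : h (g k n z) * ∏ l ∈ Finset.univ.erase k, F l (g l n z) -
        bar ν h (g k n z) * ∏ l ∈ Finset.univ.erase k, bar ν (F l) (g l n z) -
        (h' (g k n z) * ∏ l ∈ Finset.univ.erase k, F l (g l n z) -
        bar ν h' (g k n z) * ∏ l ∈ Finset.univ.erase k, bar ν (F l) (g l n z)) =
        (h (g k n z) - h' (g k n z)) * (∏ l ∈ Finset.univ.erase k, F l (g l n z)) -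
        (bar ν h (g k n z) - bar ν h' (g k n z)) *
          ∏ l ∈ Finset.univ.erase k, bar ν (F l) (g l n z) := by ring
    rw [e2]
    refine (norm_sub_le _ _).trans ?_
    rw [norm_mul, norm_mul, mul_add]
    refine add_le_add ?_ ?_
    · rw [mul_comm]
      exact mul_le_mul_of_nonneg_right (hR n z) (norm_nonneg _)
    · have h5 : ‖bar ν h (g k n z) - bar ν h' (g k n z)‖ ≤ ψ (g k n z).1 := by
        unfold bar
        rw [← integral_sub (sec_int hh _) (sec_int hh' _)]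
        exact norm_integral_le_integral_norm _
      rw [mul_comm]
      exact mul_le_mul (hR' n z) h5 (norm_nonneg _) hD0

/-- the basic functions -/
def Qf (E : Set W → Set Y) (ℛ : Set (Set W)) : Set (X × Y → ℂ) :=
  {e | ∃ (D : Set X) (A : Set W), MeasurableSet D ∧ A ∈ ℛ ∧ e = (D ×ˢ E A).indicator fun _ => 1}

/-- Extension in one slot. -/
theorem PZ_step [𝔣.NeBot] [𝔣.IsCountablyGenerated] [IsProbabilityMeasure μ] [IsProbabilityMeasure ν] (hE : IsVoid κ S ν T E)
    {g : Fin m → ι → X × Y → X × Y}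
    (hg : ∀ j n, MeasurePreserving (g j n) (μ.prod ν) (μ.prod ν))
    (hgood : ∀ j, Good 𝔣 Bx (μ.prod ν) (g j))
    {ℛ : Set (Set W)} (hℛ : ∀ A ∈ ℛ, MeasurableSet A ∧ κ A ≠ ∞)
    (hd : ∀ A, MeasurableSet A → κ A ≠ ∞ → ∀ ε : ℝ, 0 < ε → ∃ B ∈ ℛ, (κ (A ∆ B)).toReal ≤ ε)
    (F : Fin m → X × Y → ℂ) (k : Fin m) (hF : ∀ j, BM (F j))
    (hQ : ∀ e ∈ Qf (X := X) E ℛ, PZ 𝔣 Bx μ ν g (Function.update F k e)) (h : X × Y → ℂ) (hh : BM h) :
    PZ 𝔣 Bx μ ν g (Function.update F k h) := by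
  have hcl : ∀ h, BM h → (∀ ε : ℝ, 0 < ε → ∃ g' : X × Y → ℂ, BM g' ∧
      ∫ z, ‖h z - g' z‖ ∂(μ.prod ν) ≤ ε ∧ PZ 𝔣 Bx μ ν g (Function.update F k g')) →
      PZ 𝔣 Bx μ ν g (Function.update F k h) := fun h hh H => PZ_closed hg hgood hF k hh H
  refine ext_one (μ := μ.prod ν) (P := fun h => PZ 𝔣 Bx μ ν g (Function.update F k h)) ?_ ?_ hcl
    (𝒬 := Rec μ ν κ E) (fun D hD => hD.1) (Rec_pi hE) ?_ (Rec_gen hE) ?_ hh
  · intro f f' hf hf' h1 h2
    filter_upwards [h1, h2] with z hz hz'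
    have h3 := hz.add hz'
    rw [add_zero] at h3
    refine h3.congr fun N => ?_
    rw [← av_add]
    congr 1
    funext n
    rw [bar_update, bar_update, bar_update, pr_update, pr_update, pr_update, pr_update,
      pr_update, pr_update, Pi.add_apply, bar_add hf hf']
    ring
  · intro c f hf h1
    filter_upwards [h1] with z hz
    have h3 := hz.const_mul c
    rw [mul_zero] at h3
    refine h3.congr fun N => ?_
    rw [← av_mul]
    congr 1
    funext n
    rw [bar_update, bar_update, pr_update, pr_update, pr_update, pr_update, bar_mul]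
    ring
  · have := Rec_univ (μ₁ := μ) hE (MeasurableSet.univ (α := X))
    rwa [univ_prod_univ] at this
  · rintro D ⟨hDm, D₁, A, hD₁, hA, hAf, e⟩
    refine hcl _ (ind_BM hDm 1) fun ε hε => ?_
    obtain ⟨B, hB, hAB⟩ := hd A hA hAf ε hε
    obtain ⟨hBm, hBf⟩ := hℛ B hB
    refine ⟨(D₁ ×ˢ E B).indicator fun _ => 1, ind_BM (hD₁.prod (hE.meas B hBm hBf)) 1, ?_,
      hQ _ ⟨D₁, B, hD₁, hB, rfl⟩⟩
    have e1 : (fun z => ‖D.indicator (fun _ => (1 : ℂ)) z -
        (D₁ ×ˢ E B).indicator (fun _ => (1 : ℂ)) z‖) ≤ᵐ[μ.prod ν] fun z =>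
        ‖(E A).indicator (fun _ => (1 : ℂ)) z.2 - (E B).indicator (fun _ => (1 : ℂ)) z.2‖ := by
      filter_upwards [indicator_ae_eq_of_ae_eq_set (f := fun _ : X × Y => (1 : ℂ)) e] with z hz
      rw [hz]
      by_cases h0 : z.1 ∈ D₁
      · by_cases h1 : z.2 ∈ E A <;> by_cases h2 : z.2 ∈ E B <;> simp [h0, h1, h2, Set.indicator]
      · have h3 : z ∉ D₁ ×ˢ E A := fun h => h0 h.1
        have h4 : z ∉ D₁ ×ˢ E B := fun h => h0 h.1
        rw [indicator_of_notMem h3, indicator_of_notMem h4, sub_self, norm_zero]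
        exact norm_nonneg _
    have hm2 : Measurable fun y => ‖(E A).indicator (fun _ => (1 : ℂ)) y -
        (E B).indicator (fun _ => (1 : ℂ)) y‖ :=
      ((measurable_const.indicator (hE.meas A hA hAf)).sub
        (measurable_const.indicator (hE.meas B hBm hBf))).norm
    have hb2 : ∀ y, ‖(E A).indicator (fun _ => (1 : ℂ)) y -
        (E B).indicator (fun _ => (1 : ℂ)) y‖ ≤ 1 := by
      intro y
      by_cases h1 : y ∈ E A <;> by_cases h2 : y ∈ E B <;> simp [h1, h2]
    refine (integral_mono_of_nonneg (Eventually.of_forall fun z => norm_nonneg _) ?_ e1).trans ?_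
    · exact Integrable.of_bound (hm2.comp measurable_snd).aestronglyMeasurable 1
        (Eventually.of_forall fun z => by
          rw [norm_norm]
          exact hb2 _)
    · have e2 := int_snd (μ := μ) (ν := ν) fun y => ‖(E A).indicator (fun _ => (1 : ℂ)) y -
        (E B).indicator (fun _ => (1 : ℂ)) y‖
      rw [e2]
      exact (hE.dist hA hBm hAf hBf).trans hAB

theorem exp_diff {a b : ℝ} (ha : 0 ≤ a) (hab : a ≤ b) :
    |Real.exp (-a) - Real.exp (-b)| ≤ b - a := by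
  have h1 : Real.exp (-b) = Real.exp (-a) * Real.exp (-(b - a)) := by
    rw [← Real.exp_add]
    congr 1
    ring
  have h2 : Real.exp (-a) ≤ 1 := Real.exp_le_one_iff.mpr (by linarith)
  have h3 := Real.exp_pos (-a)
  have h4 := Real.add_one_le_exp (-(b - a))
  have h5 : Real.exp (-(b - a)) ≤ 1 := Real.exp_le_one_iff.mpr (by linarith)
  rw [h1, abs_of_nonneg (by nlinarith)]
  nlinarith

/-- The base case. -/
theorem PZ_base [Countable ι] [IsProbabilityMeasure μ] [IsProbabilityMeasure ν] (hE : IsVoid κ S ν T E)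
    {a : Fin m → ι → X → X} {b : Fin m → ι → Y → Y} {γ : Fin m → ι → W → W}
    (ha : ∀ j n, MeasurePreserving (a j n) μ μ)
    (hγ : ∀ j n, MeasurePreserving (γ j n) κ κ)
    (hbγ : ∀ j n A, MeasurableSet A → κ A ≠ ∞ → (b j n ⁻¹' E A : Set Y) =ᵐ[ν] E (γ j n ⁻¹' A))
    {A : Fin m → Set W} (hA : ∀ j, MeasurableSet (A j)) (hAf : ∀ j, κ (A j) ≠ ∞)
    (hR : LP 𝔣 Bx fun p => m * ∑ j, κ.real (γ j p.1 ⁻¹' A j ∩ γ j p.2 ⁻¹' A j))
    (hDg : ∀ i j, i ≠ j → Tendsto (fun N : I => avr (Bx N) fun n =>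
      κ.real (γ i n ⁻¹' A i ∩ γ j n ⁻¹' A j)) 𝔣 (𝓝 0))
    {D₁ : Fin m → Set X} (hD₁ : ∀ j, MeasurableSet (D₁ j)) :
    PZ 𝔣 Bx μ ν (fun j n z => (a j n z.1, b j n z.2))
      (fun j => (D₁ j ×ˢ E (A j)).indicator fun _ => (1 : ℂ)) := by
  let C : Fin m → ι → Set W := fun j n => γ j n ⁻¹' A j
  have hC : ∀ j n, MeasurableSet (C j n) := fun j n => (hγ j n).measurable (hA j)
  have hCe : ∀ j n, κ (C j n) = κ (A j) := fun j n =>
    (hγ j n).measure_preimage (hA j).nullMeasurableSet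
  have hCf : ∀ j n, κ (C j n) ≠ ∞ := fun j n => by
    rw [hCe]
    exact hAf j
  let D : ι → Set W := fun n => ⋃ j, C j n
  have hD : ∀ n, MeasurableSet (D n) := fun n => MeasurableSet.iUnion fun j => hC j n
  have hDf : ∀ n, κ (D n) ≠ ∞ := fun n => by
    have := fin_biUnion (ν := κ) (Finset.univ : Finset (Fin m)) (B := fun j => C j n)
      fun j => hCf j n
    simpa [D] using this
  let w : ι → X → ℝ := fun n x => ∏ j, (D₁ j).indicator (fun _ => (1 : ℝ)) (a j n x)
  have hw : ∀ n, Measurable (w n) := fun n => Finset.measurable_fun_prod _ fun j _ =>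
    (measurable_const.indicator (hD₁ j)).comp (ha j n).measurable
  have hind : ∀ (s : Set X) (x : X), 0 ≤ s.indicator (fun _ => (1 : ℝ)) x ∧
      s.indicator (fun _ => (1 : ℝ)) x ≤ 1 := fun s x =>
    ⟨indicator_nonneg (fun _ _ => zero_le_one) _, indicator_le_self' (fun _ _ => zero_le_one) x⟩
  have hw0 : ∀ n x, 0 ≤ w n x := fun n x => Finset.prod_nonneg fun j _ => (hind _ _).1
  have hw1 : ∀ n x, w n x ≤ 1 := fun n x => Finset.prod_le_one (fun j _ => (hind _ _).1)
    fun j _ => (hind _ _).2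
  have hwa : ∀ n x, |w n x| ≤ 1 := fun n x => by
    rw [abs_of_nonneg (hw0 n x)]
    exact hw1 n x
  -- the centered part
  have h1 := hR (X × Y) inferInstance (μ.prod ν) inferInstance
    (fun n z => w n z.1 * ue κ E (D n) z.2) (fun n => ((hw n).comp measurable_fst).mul ((ue_meas hE (hD n) (hDf n)).comp measurable_snd))
    (fun n z => by
      rw [abs_mul]
      exact mul_le_one₀ (hwa n _) (abs_nonneg _) (ue_abs _ _ _ _))
    (fun N => by
      refine (var hE (Bx N) hw hwa hD hDf).trans ?_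
      refine (overlap_union (Bx N) hC hCf).trans (le_of_eq ?_)
      rw [← Finset.mul_sum, Finset.sum_comm])
  -- the expectations
  have h2 : ∀ x : X, Tendsto (fun N : I => avr (Bx N) fun n =>
      w n x * (pe κ (D n) - ∏ j, pe κ (A j))) 𝔣 (𝓝 0) := by
    intro x
    have h3 : Tendsto (fun N : I => ∑ i, ∑ j, avr (Bx N) fun n =>
        if i ≠ j then κ.real (C i n ∩ C j n) else 0) 𝔣 (𝓝 0) := by
      have h4 : (0 : ℝ) = ∑ _i : Fin m, ∑ _j : Fin m, 0 := by simp
      rw [h4]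
      refine tendsto_finsetSum _ fun i _ => tendsto_finsetSum _ fun j _ => ?_
      by_cases hij : i ≠ j
      · simp only [if_pos hij]
        exact hDg i j hij
      · simp only [if_neg hij]
        refine tendsto_const_nhds.congr fun N => ?_
        simp [avr]
    refine squeeze_zero_norm (fun N => ?_) h3
    rw [Real.norm_eq_abs]
    refine (avr_abs _ _).trans ?_
    have e3 : ∑ i, ∑ j, avr (Bx N) (fun n =>
        if i ≠ j then κ.real (C i n ∩ C j n) else 0) = avr (Bx N) fun n =>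
        ∑ i, ∑ j, if i ≠ j then κ.real (C i n ∩ C j n) else 0 := by
      unfold avr
      rw [Finset.sum_comm' (t' := Finset.univ) (s' := fun _ => Bx N)
        (by simp), Finset.mul_sum]
      refine Finset.sum_congr rfl fun i _ => ?_
      rw [Finset.sum_comm, Finset.mul_sum]
    rw [e3]
    refine avr_mono fun n _ => ?_
    rw [abs_mul]
    refine (mul_le_of_le_one_left (abs_nonneg _) (hwa n x)).trans ?_
    have h5 := union_real (κ := κ) (C := fun j => C j n) (fun j => hC j n) (fun j => hCf j n)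
    have e4 : ∏ j, pe κ (A j) = Real.exp (-(∑ j, κ.real (C j n))) := by
      unfold pe
      rw [← Real.exp_sum, Finset.sum_neg_distrib]
      congr 2
      refine Finset.sum_congr rfl fun j _ => ?_
      rw [measureReal_def, measureReal_def, hCe]
    rw [e4]
    refine (exp_diff measureReal_nonneg h5.1).trans ?_
    linarith [h5.2]
  -- identification of the products
  have h6 : ∀ᵐ y ∂ν, ∀ n, (y ∈ E (D n)) ↔ ∀ j, b j n y ∈ E (A j) := by
    rw [ae_all_iff]
    intro n
    have h7 := hE.biUnion (Finset.univ : Finset (Fin m)) (fun j => hC j n) (fun j => hCf j n)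
    have h8 : ∀ᵐ y ∂ν, ∀ j : Fin m, (y ∈ E (C j n)) ↔ b j n y ∈ E (A j) := by
      rw [ae_all_iff]
      intro j
      filter_upwards [hbγ j n (A j) (hA j) (hAf j)] with y hy
      exact (Iff.of_eq hy).symm
    filter_upwards [h7, h8] with y hy hy'
    have h9 : (y ∈ E (⋃ i ∈ (Finset.univ : Finset (Fin m)), C i n)) ↔
        y ∈ ⋂ i ∈ (Finset.univ : Finset (Fin m)), E (C i n) := Iff.of_eq hy
    have h10 : (⋃ i ∈ (Finset.univ : Finset (Fin m)), C i n) = D n := by simp [D]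
    rw [h10] at h9
    rw [h9]
    simp only [Finset.mem_univ, iInter_true, mem_iInter]
    exact forall_congr' hy'
  have h6' : ∀ᵐ z ∂(μ.prod ν), ∀ n, (z.2 ∈ E (D n)) ↔ ∀ j, b j n z.2 ∈ E (A j) :=
    Measure.quasiMeasurePreserving_snd.ae h6
  filter_upwards [h1, h6'] with z hz hz'
  have h11 := hz.add (h2 z.1)
  rw [add_zero] at h11
  have h12 := (Complex.continuous_ofReal.tendsto _).comp h11
  rw [Complex.ofReal_zero] at h12
  refine h12.congr fun N => ?_
  simp only [Function.comp_apply]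
  rw [← avr_add, ← av_ofReal]
  congr 1
  funext n
  have e5 : pr (fun j n z => (a j n z.1, b j n z.2))
      (fun j => (D₁ j ×ˢ E (A j)).indicator fun _ => (1 : ℂ)) n z =
      ((w n z.1 * (E (D n)).indicator (fun _ => (1 : ℝ)) z.2 : ℝ) : ℂ) := by
    unfold pr
    have e6 : ∀ j, (D₁ j ×ˢ E (A j)).indicator (fun _ => (1 : ℂ)) (a j n z.1, b j n z.2) =
        (((D₁ j).indicator (fun _ => (1 : ℝ)) (a j n z.1) *
          (E (A j)).indicator (fun _ => (1 : ℝ)) (b j n z.2) : ℝ) : ℂ) := by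
      intro j
      by_cases c1 : a j n z.1 ∈ D₁ j <;> by_cases c2 : b j n z.2 ∈ E (A j) <;>
        simp [c1, c2, Set.indicator]
    simp only [e6]
    rw [← Complex.ofReal_prod, Finset.prod_mul_distrib]
    congr 2
    by_cases c : ∀ j, b j n z.2 ∈ E (A j)
    · rw [indicator_of_mem ((hz' n).mpr c)]
      exact Finset.prod_eq_one fun j _ => indicator_of_mem (c j) _
    · rw [indicator_of_notMem fun h => c ((hz' n).mp h)]
      rw [not_forall] at c
      obtain ⟨j, hj⟩ := c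
      exact Finset.prod_eq_zero (Finset.mem_univ j) (indicator_of_notMem hj _)
  have e7 : pr (fun j n z => (a j n z.1, b j n z.2))
      (fun j => bar ν ((D₁ j ×ˢ E (A j)).indicator fun _ => (1 : ℂ))) n z =
      ((w n z.1 * ∏ j, pe κ (A j) : ℝ) : ℂ) := by
    unfold pr
    have e8 : ∀ j, bar ν ((D₁ j ×ˢ E (A j)).indicator fun _ => (1 : ℂ))
        (a j n z.1, b j n z.2) =
        (((D₁ j).indicator (fun _ => (1 : ℝ)) (a j n z.1) * pe κ (A j) : ℝ) : ℂ) := by
      intro j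
      unfold bar
      have e9 : (fun y => (D₁ j ×ˢ E (A j)).indicator (fun _ => (1 : ℂ)) (a j n z.1, y)) =
          fun y => (((D₁ j).indicator (fun _ => (1 : ℝ)) (a j n z.1) : ℝ) : ℂ) *
            (E (A j)).indicator (fun _ => (1 : ℂ)) y := by
        funext y
        by_cases c1 : a j n z.1 ∈ D₁ j <;> by_cases c2 : y ∈ E (A j) <;>
          simp [c1, c2, Set.indicator]
      simp only [e9]
      rw [integral_const_mul, integral_indicator_const _ (hE.meas _ (hA j) (hAf j)),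
        real_E hE (hA j) (hAf j)]
      push_cast
      simp
    simp only [e8]
    rw [← Complex.ofReal_prod, Finset.prod_mul_distrib]
  rw [e5, e7, ← Complex.ofReal_sub]
  congr 1
  unfold ue
  ring

/-- **The first factor is characteristic.** -/
theorem PZ_all [Countable ι] [𝔣.NeBot] [𝔣.IsCountablyGenerated] [IsProbabilityMeasure μ] [IsProbabilityMeasure ν] (hE : IsVoid κ S ν T E)
    {a : Fin m → ι → X → X} {b : Fin m → ι → Y → Y} {γ : Fin m → ι → W → W}
    (ha : ∀ j n, MeasurePreserving (a j n) μ μ) (hb : ∀ j n, MeasurePreserving (b j n) ν ν)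
    (hγ : ∀ j n, MeasurePreserving (γ j n) κ κ)
    (hbγ : ∀ j n A, MeasurableSet A → κ A ≠ ∞ → (b j n ⁻¹' E A : Set Y) =ᵐ[ν] E (γ j n ⁻¹' A))
    {ℛ : Set (Set W)} (hℛ : ∀ A ∈ ℛ, MeasurableSet A ∧ κ A ≠ ∞)
    (hd : ∀ A, MeasurableSet A → κ A ≠ ∞ → ∀ ε : ℝ, 0 < ε → ∃ B ∈ ℛ, (κ (A ∆ B)).toReal ≤ ε)
    (hR : ∀ A : Fin m → Set W, (∀ j, A j ∈ ℛ) →
      LP 𝔣 Bx fun p => m * ∑ j, κ.real (γ j p.1 ⁻¹' A j ∩ γ j p.2 ⁻¹' A j))
    (hDg : ∀ i j, i ≠ j → ∀ A ∈ ℛ, ∀ B ∈ ℛ, Tendsto (fun N : I =>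
      avr (Bx N) fun n => κ.real (γ i n ⁻¹' A ∩ γ j n ⁻¹' B)) 𝔣 (𝓝 0))
    (hgood : ∀ j, Good 𝔣 Bx (μ.prod ν)
      (fun n z => (a j n z.1, b j n z.2)))
    {F : Fin m → X × Y → ℂ} (hF : ∀ j, BM (F j)) :
    PZ 𝔣 Bx μ ν (fun j n z => (a j n z.1, b j n z.2)) F := by
  have hg : ∀ j n, MeasurePreserving (fun z : X × Y => (a j n z.1, b j n z.2)) (μ.prod ν)
      (μ.prod ν) := fun j n => (ha j n).prod (hb j n)
  refine ext_all (P := PZ 𝔣 Bx μ ν (fun j n z => (a j n z.1, b j n z.2))) (𝒬 := Qf (X := X) E ℛ)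
    ?_ ?_ ?_ hF
  · rintro e ⟨D, A, hD, hA, rfl⟩
    exact ind_BM (hD.prod (hE.meas A (hℛ A hA).1 (hℛ A hA).2)) 1
  · intro f k hf hQ h hh
    exact PZ_step hE hg hgood hℛ hd f k hf hQ h hh
  · intro f hf
    choose D A hD hA e using hf
    have : f = fun j => (D j ×ˢ E (A j)).indicator fun _ => (1 : ℂ) := funext e
    rw [this]
    exact PZ_base hE ha hγ hbγ (fun j => (hℛ _ (hA j)).1) (fun j => (hℛ _ (hA j)).2)
      (hR A hA) (fun i j hij => hDg i j hij _ (hA i) _ (hA j)) hD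

end Pool.Agent.TH739.PA
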