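import Mathlib
import Pool.Agent.TH739.PA.Base

/-!
# Actions, two-sided averages
-/

set_option autoImplicit false

open Filter Topology MeasureTheory Set
open scoped ENNReal NNReal symmDiff

noncomputable section

namespace Pool.Agent.TH739.PA

open Pool.Agent.TH739.Poi (IsVoid)
open Pool.Agent.W761.Gauss (BM BM_of_memLp)

/-- The action `Ψ` of the group `G` on the probability space `(Y, ν)` is a Poisson suspension of
the action `Θ` on the (typically infinite) measure space `(W, κ)`. -/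
structure IsPoissonAction {G W Y : Type} [Group G] [MeasurableSpace W] [MeasurableSpace Y]
    (κ : Measure W) (Θ : G →* Equiv.Perm W) (ν : Measure Y) (Ψ : G →* Equiv.Perm Y) : Prop where
  base : ∀ g, MeasurePreserving (Θ g) κ κ
  mp : ∀ g, MeasurePreserving (Ψ g) ν ν
  void : ∃ E : Set W → Set Y, IsVoid κ id ν id E ∧ ∀ g A, MeasurableSet A → κ A ≠ ∞ →
    (Ψ g ⁻¹' E A : Set Y) =ᵐ[ν] E (Θ g ⁻¹' A)

section two

theorem LP_two_sided {q : ℤ × ℤ → ℝ} (hq : ∀ p, 0 ≤ q p)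
    (hs : Summable fun p => q p / (1 + mx p) ^ 2) :
    LP atTop (fun N : ℕ => Finset.Icc (-(N : ℤ)) N) q := by
  intro Z _ P _ ξ h1 h2 h3
  exact two_sided h1 h2 hq hs h3

theorem sum_Icc (F : ℤ → ℝ) (N : ℕ) : ∑ n ∈ Finset.Icc (-(N : ℤ)) (N : ℤ), F n =
    ∑ n ∈ Finset.range (N + 1), F (n : ℤ) + ∑ n ∈ Finset.range (N + 1), F (-(n : ℤ)) - F 0 := by
  induction N with
  | zero => simp
  | succ N ih =>
    have e3 : Finset.Icc (-((N + 1 : ℕ) : ℤ)) ((N + 1 : ℕ) : ℤ) =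
        insert ((N + 1 : ℕ) : ℤ) (insert (-((N + 1 : ℕ) : ℤ))
          (Finset.Icc (-(N : ℤ)) (N : ℤ))) := by
      ext z
      simp only [Finset.mem_insert, Finset.mem_Icc]
      push_cast
      omega
    rw [e3, Finset.sum_insert, Finset.sum_insert, ih, Finset.sum_range_succ _ (N + 1),
      Finset.sum_range_succ _ (N + 1)]
    · ring
    · simp only [Finset.mem_Icc]
      push_cast
      omega
    · simp only [Finset.mem_insert, Finset.mem_Icc]
      push_cast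
      omega

theorem two_sided_conv {F : ℤ → ℝ} {L₁ L₂ : ℝ}
    (h1 : Tendsto (fun N : ℕ => (N : ℝ)⁻¹ * ∑ n ∈ Finset.range N, F (n : ℤ)) atTop (𝓝 L₁))
    (h2 : Tendsto (fun N : ℕ => (N : ℝ)⁻¹ * ∑ n ∈ Finset.range N, F (-(n : ℤ))) atTop (𝓝 L₂)) :
    Tendsto (fun N : ℕ => avr (Finset.Icc (-(N : ℤ)) N) F) atTop (𝓝 (2⁻¹ * (L₁ + L₂))) := by
  have e1 := h1.comp (tendsto_add_atTop_nat 1)
  have e2 := h2.comp (tendsto_add_atTop_nat 1)
  have hinv : Tendsto (fun N : ℕ => (2 * (N : ℝ) + 1)⁻¹) atTop (𝓝 0) := by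
    apply tendsto_inv_atTop_zero.comp
    refine tendsto_atTop_add_const_right _ _ ?_
    exact tendsto_natCast_atTop_atTop.const_mul_atTop (by norm_num)
  have hr : Tendsto (fun N : ℕ => ((N : ℝ) + 1) * (2 * (N : ℝ) + 1)⁻¹) atTop (𝓝 (2⁻¹)) := by
    have h3 : ∀ N : ℕ, ((N : ℝ) + 1) * (2 * (N : ℝ) + 1)⁻¹ =
        2⁻¹ + 2⁻¹ * (2 * (N : ℝ) + 1)⁻¹ := by
      intro N
      have : (2 * (N : ℝ) + 1) ≠ 0 := by positivity
      field_simp
      ring
    simp only [h3]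
    simpa using (hinv.const_mul (2⁻¹ : ℝ)).const_add (2⁻¹ : ℝ)
  have hlim := (hr.mul (e1.add e2)).sub (hinv.mul_const (F 0))
  rw [zero_mul, sub_zero] at hlim
  refine hlim.congr fun N => ?_
  simp only [Function.comp_apply]
  rw [avr, Icc_card, sum_Icc]
  push_cast
  have h5 : ((N : ℝ) + 1) ≠ 0 := by positivity
  have h6 : (2 * (N : ℝ) + 1) ≠ 0 := by positivity
  field_simp

/-- Powers of one transformation are good. -/
theorem good_pow {Z : Type} [MeasurableSpace Z] {P : Measure Z} [IsProbabilityMeasure P]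
    (t : Equiv.Perm Z) (ht : MeasurePreserving t P P) (ht' : MeasurePreserving (t⁻¹ : Equiv.Perm Z)
      P P) : Good atTop (fun N : ℕ => Finset.Icc (-(N : ℤ)) N) P
        (fun (n : ℤ) (z : Z) => (t ^ n) z) := by
  intro H hH ⟨C, hC⟩
  have h1 := H165R3.BPE.birkhoff ht H hH C hC
  have h2 := H165R3.BPE.birkhoff ht' H hH C hC
  filter_upwards [h1, h2] with z hz hz'
  refine ⟨_, two_sided_conv (F := fun n => H ((t ^ n) z)) (hz.congr fun N => ?_)
    (hz'.congr fun N => ?_)⟩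
  · exact congrArg _ (Finset.sum_congr rfl fun n _ => by rw [zpow_natCast, Equiv.Perm.coe_pow])
  · exact congrArg _ (Finset.sum_congr rfl fun n _ => by
      rw [zpow_neg, zpow_natCast, ← inv_pow, Equiv.Perm.coe_pow])

end two

section act

variable {X Y W G : Type} [Group G] [MeasurableSpace X] [MeasurableSpace Y] [MeasurableSpace W]
  {μ : Measure X} {ν : Measure Y} {κ : Measure W} {m : ℕ}

/-- Passage from bounded measurable functions to `L^∞`. -/
theorem Linf {ι I : Type} [Countable ι] {𝔣 : Filter I} {Bx : I → Finset ι}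
    [IsProbabilityMeasure μ] [IsProbabilityMeasure ν]
    {a : Fin m → ι → X → X} {b : Fin m → ι → Y → Y}
    (ha : ∀ j n, MeasurePreserving (a j n) μ μ) (hb : ∀ j n, MeasurePreserving (b j n) ν ν)
    (H : ∀ F : Fin m → X × Y → ℂ, (∀ j, BM (F j)) →
      PZ 𝔣 Bx μ ν (fun j n z => (a j n z.1, b j n z.2)) F)
    {f : Fin m → X × Y → ℂ} (hf : ∀ j, MemLp (f j) ∞ (μ.prod ν)) :
    ∀ᵐ z ∂(μ.prod ν), Tendsto (fun N => av (Bx N) fun n =>
      (∏ j, f j (a j n z.1, b j n z.2) - ∏ j, ∫ y, f j (a j n z.1, y) ∂ν)) 𝔣 (𝓝 0) := by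
  choose F hF hfF using fun j => BM_of_memLp (hf j)
  have h0 := H F hF
  have h1 : ∀ᵐ z ∂(μ.prod ν), ∀ n j, f j (a j n z.1, b j n z.2) = F j (a j n z.1, b j n z.2) := by
    rw [ae_all_iff]
    intro n
    rw [ae_all_iff]
    intro j
    exact ((ha j n).prod (hb j n)).quasiMeasurePreserving.ae (hfF j)
  have h2 : ∀ j, ∀ᵐ x ∂μ, ∫ y, f j (x, y) ∂ν = ∫ y, F j (x, y) ∂ν := by
    intro j
    filter_upwards [Measure.ae_ae_of_ae_prod (hfF j)] with x hx
    exact integral_congr_ae hx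
  have h3 : ∀ᵐ x ∂μ, ∀ n j, ∫ y, f j (a j n x, y) ∂ν = ∫ y, F j (a j n x, y) ∂ν := by
    rw [ae_all_iff]
    intro n
    rw [ae_all_iff]
    intro j
    exact (ha j n).quasiMeasurePreserving.ae (h2 j)
  have h3' : ∀ᵐ z ∂(μ.prod ν), ∀ n j, ∫ y, f j (a j n z.1, y) ∂ν =
      ∫ y, F j (a j n z.1, y) ∂ν := Measure.quasiMeasurePreserving_fst.ae h3
  filter_upwards [h0, h1, h3'] with z hz hz1 hz2
  refine hz.congr fun N => ?_
  congr 1
  funext n
  unfold pr bar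
  congr 1
  · exact Finset.prod_congr rfl fun j _ => (hz1 n j).symm
  · exact Finset.prod_congr rfl fun j _ => (hz2 n j).symm

/-- **The first factor is characteristic (two-sided averages).** -/
theorem factor_two_sided [IsProbabilityMeasure μ] [IsProbabilityMeasure ν]
    {Φ : G →* Equiv.Perm X} (hΦ : ∀ g, MeasurePreserving (Φ g) μ μ)
    {Θ : G →* Equiv.Perm W} {Ψ : G →* Equiv.Perm Y} (hΨ : IsPoissonAction κ Θ ν Ψ)
    (g : Fin m → ℤ → G) {ℛ : Set (Set W)} (hℛ : ∀ A ∈ ℛ, MeasurableSet A ∧ κ A ≠ ∞)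
    (hd : ∀ A, MeasurableSet A → κ A ≠ ∞ → ∀ ε : ℝ, 0 < ε → ∃ B ∈ ℛ, (κ (A ∆ B)).toReal ≤ ε)
    (hR : ∀ j, ∀ A ∈ ℛ, Summable fun p : ℤ × ℤ =>
      κ.real (Θ (g j p.1) ⁻¹' A ∩ Θ (g j p.2) ⁻¹' A) / (1 + mx p) ^ 2)
    (hDg : ∀ i j, i ≠ j → ∀ A ∈ ℛ, ∀ B ∈ ℛ, Tendsto (fun N : ℕ =>
      avr (Finset.Icc (-(N : ℤ)) N) fun n => κ.real (Θ (g i n) ⁻¹' A ∩ Θ (g j n) ⁻¹' B))
      atTop (𝓝 0))
    (hgood : ∀ j, (∃ b : G, ∀ n, g j n = b ^ n) ∨
      Good atTop (fun N : ℕ => Finset.Icc (-(N : ℤ)) N) (μ.prod ν)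
        (fun n z => (Φ (g j n) z.1, Ψ (g j n) z.2)))
    {f : Fin m → X × Y → ℂ} (hf : ∀ j, MemLp (f j) ∞ (μ.prod ν)) :
    ∀ᵐ z ∂(μ.prod ν), Tendsto (fun N : ℕ => av (Finset.Icc (-(N : ℤ)) N) fun n =>
      (∏ j, f j (Φ (g j n) z.1, Ψ (g j n) z.2) - ∏ j, ∫ y, f j (Φ (g j n) z.1, y) ∂ν))
      atTop (𝓝 0) := by
  obtain ⟨E, hE, hEq⟩ := hΨ.void
  refine Linf (a := fun j n => Φ (g j n)) (b := fun j n => Ψ (g j n)) (fun j n => hΦ _)
    (fun j n => hΨ.mp _) (fun F hF => ?_) hf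
  refine PZ_all hE (γ := fun j n => Θ (g j n)) (fun j n => hΦ _) (fun j n => hΨ.mp _)
    (fun j n => hΨ.base _) (fun j n A hA hAf => hEq _ A hA hAf) hℛ hd (fun A hA => ?_)
    hDg (fun j => ?_) hF
  · refine LP_two_sided (fun p => mul_nonneg (Nat.cast_nonneg _)
      (Finset.sum_nonneg fun j _ => measureReal_nonneg)) ?_
    have h2 := (summable_sum (s := Finset.univ) fun j _ => hR j (A j) (hA j)).mul_left (m : ℝ)
    refine h2.congr fun p => ?_
    rw [← Finset.sum_div, mul_div_assoc]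
  · rcases hgood j with ⟨b, hb⟩ | h
    · let t : Equiv.Perm (X × Y) := Equiv.prodCongr (Φ b) (Ψ b)
      have ht : MeasurePreserving t (μ.prod ν) (μ.prod ν) := (hΦ b).prod (hΨ.mp b)
      have ht' : MeasurePreserving (t⁻¹ : Equiv.Perm (X × Y)) (μ.prod ν) (μ.prod ν) := by
        have h3 := (hΦ b⁻¹).prod (hΨ.mp b⁻¹)
        rw [map_inv, map_inv] at h3
        exact h3
      have h4 := good_pow t ht ht'
      have h5 : (fun (n : ℤ) (z : X × Y) => (Φ (g j n) z.1, Ψ (g j n) z.2)) =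
          fun n z => (t ^ n) z := by
        funext n z
        have h6 : ∀ n : ℤ, (t ^ n) = Equiv.prodCongr ((Φ b) ^ n) ((Ψ b) ^ n) := by
          let h : Equiv.Perm X × Equiv.Perm Y →* Equiv.Perm (X × Y) :=
            ⟨⟨fun p => Equiv.prodCongr p.1 p.2, rfl⟩, fun p q => rfl⟩
          intro n
          exact (map_zpow h (Φ b, Ψ b) n).symm
        rw [h6, hb n, map_zpow, map_zpow]
        rfl
      rw [h5]
      exact h4
    · exact h

end act

end Pool.Agent.TH739.PA
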