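import Mathlib
import Pool.Agent.TH739.PA.Act

/-!
# Existence of Poisson suspensions of actions
-/

set_option autoImplicit false

open Filter Topology MeasureTheory Set
open scoped ENNReal NNReal symmDiff

noncomputable section

namespace Pool.Agent.TH739.PA

open Pool.Agent.TH739.Poi (IsVoid PP V V_meas prob_V Om Conf VC actC)

/-- **Existence of the Poisson suspension** of an action on an s-finite measure space. -/
theorem exists_isPoissonAction {G W : Type} [Group G] [MeasurableSpace W] [Nonempty W]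
    (κ : Measure W) [SFinite κ] (Θ : G →* Equiv.Perm W) (hΘ : ∀ g, MeasurePreserving (Θ g) κ κ) :
    ∃ (Y : Type) (_ : MeasurableSpace Y) (ν : Measure Y) (Ψ : G →* Equiv.Perm Y),
      IsProbabilityMeasure ν ∧ IsPoissonAction κ Θ ν Ψ := by
  obtain ⟨y₀⟩ := (inferInstance : Nonempty W)
  let ρ : ℕ → Measure W := sfiniteSeq κ
  have hρ : Measure.sum ρ = κ := sum_sfiniteSeq κ
  have hV : ∀ A, MeasurableSet A → κ A ≠ ∞ →
      PP ρ y₀ (V A) = ENNReal.ofReal (Real.exp (-(κ A).toReal)) := by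
    intro A hA hf
    have := prob_V (ν := ρ) (y₀ := y₀) hA (by rwa [hρ])
    rwa [hρ] at this
  let ι : Om W → Conf κ := fun ω => ω
  have hι : Measurable ι := by
    refine measurable_generateFrom ?_
    rintro _ ⟨A, hA, _, rfl⟩
    exact V_meas hA
  let μ : Measure (Conf κ) := (PP ρ y₀).map ι
  have hgenm : ∀ A, MeasurableSet A → κ A ≠ ∞ → MeasurableSet (VC κ A) := fun A hA hf =>
    MeasurableSpace.measurableSet_generateFrom ⟨A, hA, hf, rfl⟩
  have hμ : ∀ A, MeasurableSet A → κ A ≠ ∞ →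
      μ (VC κ A) = ENNReal.ofReal (Real.exp (-(κ A).toReal)) := by
    intro A hA hf
    rw [← hV A hA hf]
    exact Measure.map_apply hι (hgenm A hA hf)
  have hprob : IsProbabilityMeasure μ := Measure.isProbabilityMeasure_map hι.aemeasurable
  have hact : ∀ (S : W → W) A, actC κ S ⁻¹' VC κ A = VC κ (S ⁻¹' A) := fun S A => rfl
  have hunion : ∀ A B : Set W, VC κ (A ∪ B) = VC κ A ∩ VC κ B := by
    intro A B
    ext ω
    exact ⟨fun h => ⟨fun k l hl hx => h k l hl (Or.inl hx), fun k l hl hx => h k l hl (Or.inr hx)⟩,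
      fun h k l hl hx => hx.elim (h.1 k l hl) (h.2 k l hl)⟩
  have hpi : IsPiSystem {D : Set (Conf κ) | ∃ A, MeasurableSet A ∧ κ A ≠ ∞ ∧ D = VC κ A} := by
    rintro _ ⟨A, hA, hf, rfl⟩ _ ⟨B, hB, hg, rfl⟩ _
    exact ⟨A ∪ B, hA.union hB, (measure_union_lt_top hf.lt_top hg.lt_top).ne, (hunion A B).symm⟩
  have hmp : ∀ S : W → W, MeasurePreserving S κ κ → MeasurePreserving (actC κ S) μ μ := by
    intro S hS
    have hfin : ∀ A, MeasurableSet A → κ A ≠ ∞ → κ (S ⁻¹' A) ≠ ∞ := fun A hA hf => by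
      rwa [hS.measure_preimage hA.nullMeasurableSet]
    have hmeas : Measurable (actC κ S) := by
      refine measurable_generateFrom ?_
      rintro _ ⟨A, hA, hf, rfl⟩
      exact hgenm _ (hS.measurable hA) (hfin A hA hf)
    refine ⟨hmeas, ?_⟩
    have hp2 : IsProbabilityMeasure (μ.map (actC κ S)) :=
      Measure.isProbabilityMeasure_map hmeas.aemeasurable
    refine ext_of_generate_finite _ rfl hpi ?_ ?_
    · rintro _ ⟨A, hA, hf, rfl⟩
      show (μ.map (actC κ S)) (VC κ A) = μ (VC κ A)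
      rw [Measure.map_apply hmeas (hgenm A hA hf), hact, hμ A hA hf,
        hμ (S ⁻¹' A) (hS.measurable hA) (hfin A hA hf), hS.measure_preimage hA.nullMeasurableSet]
    · rw [measure_univ, measure_univ]
  have hcomp : ∀ g h : G, ∀ ω : Conf κ, actC κ (Θ g) (actC κ (Θ h) ω) = actC κ (Θ (g * h)) ω := by
    intro g h ω
    funext k
    refine Prod.ext rfl (funext fun l => ?_)
    show Θ g (Θ h _) = Θ (g * h) _
    rw [map_mul, Equiv.Perm.mul_apply]
  have hone : ∀ ω : Conf κ, actC κ (Θ 1) ω = ω := by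
    intro ω
    funext k
    refine Prod.ext rfl (funext fun l => ?_)
    show Θ 1 _ = _
    rw [map_one]
    rfl
  let Ψ : G →* Equiv.Perm (Conf κ) :=
    { toFun := fun g => ⟨actC κ (Θ g), actC κ (Θ g⁻¹), fun ω => by
          rw [hcomp, inv_mul_cancel, hone], fun ω => by rw [hcomp, mul_inv_cancel, hone]⟩
      map_one' := Equiv.ext hone
      map_mul' := fun g h => Equiv.ext fun ω => (hcomp g h ω).symm }
  refine ⟨Conf κ, inferInstance, μ, Ψ, hprob, hΘ, fun g => hmp _ (hΘ g), VC κ,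
    ⟨hgenm, hμ, ?_, ?_, ?_⟩, ?_⟩
  · intro A B hA hB hf hg
    exact Filter.EventuallyEq.of_eq (hunion A B)
  · intro A hA hf
    exact Filter.EventuallyEq.of_eq rfl
  · intro C hC
    exact ⟨C, hC, Filter.EventuallyEq.refl _ _⟩
  · intro g A hA hf
    exact Filter.EventuallyEq.of_eq (hact _ A)

end Pool.Agent.TH739.PA
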